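import Mathlib

set_option autoImplicit false

/-!
MP_c1331e_co, all c. Definitions for the finite proof (blueprint: team-store H51_TOUR_blueprint.md):
finite probability laws, seeds, configurations, systems, refinements, kernels, final data.
-/

namespace Pool.Agent.H51.PT

open Finset

/-! ### Laws on finite types -/

/-- A probability law on a finite type. -/
structure Law (α : Type) [Fintype α] where
  w : α → ℝ
  nn : ∀ a, 0 ≤ w a
  one : ∑ a, w a = 1

/-- Expectation. -/
def Law.E {α : Type} [Fintype α] (μ : Law α) (f : α → ℝ) : ℝ := ∑ a, μ.w a * f a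

open Classical in
/-- Probability of an event. -/
noncomputable def Law.P {α : Type} [Fintype α] (μ : Law α) (p : α → Prop) : ℝ :=
  ∑ a, if p a then μ.w a else 0

/-- Product law of a finite family. -/
noncomputable def Law.pi {I : Type} [Fintype I] [DecidableEq I] {A : I → Type}
    [∀ i, Fintype (A i)] (μ : ∀ i, Law (A i)) : Law (∀ i, A i) where
  w := fun a => ∏ i, (μ i).w (a i)
  nn := fun a => Finset.prod_nonneg fun i _ => (μ i).nn (a i)
  one := by
    have h := Finset.prod_univ_sum (fun i : I => (univ : Finset (A i))) (fun i a => (μ i).w a)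
    rw [Fintype.piFinset_univ] at h
    rw [← h]
    exact Finset.prod_eq_one fun i _ => (μ i).one

/-- Joint law of a point and a sample from a kernel. -/
noncomputable def Law.prod {α β : Type} [Fintype α] [Fintype β] (μ : Law α) (κ : α → Law β) :
    Law (α × β) where
  w := fun x => μ.w x.1 * (κ x.1).w x.2
  nn := fun x => mul_nonneg (μ.nn _) ((κ _).nn _)
  one := by
    rw [Fintype.sum_prod_type]
    have : ∀ a, ∑ b, μ.w a * (κ a).w b = μ.w a := by
      intro a
      rw [← Finset.mul_sum, (κ a).one, mul_one]
    simp only [this]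
    exact μ.one

/-- The mixture of a kernel. -/
noncomputable def Law.mix {α β : Type} [Fintype α] [Fintype β] (μ : Law α) (κ : α → Law β) :
    Law β where
  w := fun b => ∑ a, μ.w a * (κ a).w b
  nn := fun b => Finset.sum_nonneg fun a _ => mul_nonneg (μ.nn _) ((κ _).nn _)
  one := by
    rw [Finset.sum_comm]
    have : ∀ a, ∑ b, μ.w a * (κ a).w b = μ.w a := by
      intro a
      rw [← Finset.mul_sum, (κ a).one, mul_one]
    simp only [this]
    exact μ.one

open Classical in
/-- Point mass. -/
noncomputable def Law.dirac {α : Type} [Fintype α] (a : α) : Law α where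
  w := fun b => if b = a then 1 else 0
  nn := fun b => by split_ifs <;> norm_num
  one := by simp

/-- Image law. -/
noncomputable def Law.map {α β : Type} [Fintype α] [Fintype β] (μ : Law α) (f : α → β) :
    Law β := Law.mix μ (fun a => Law.dirac (f a))

open Classical in
/-- Uniform law on a nonempty finite set. -/
noncomputable def Law.unif {α : Type} [Fintype α] (s : Finset α) (hs : s.Nonempty) : Law α where
  w := fun b => if b ∈ s then 1 / (s.card : ℝ) else 0
  nn := fun b => by split_ifs <;> positivity
  one := by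
    have h : (s.card : ℝ) ≠ 0 := by
      have := Finset.card_pos.mpr hs
      positivity
    rw [Finset.sum_ite_mem, Finset.univ_inter, Finset.sum_const, nsmul_eq_mul]
    field_simp

/-! ### Configurations and seeds -/

/-- Configurations: a seed for every finite set of points (the empty set included). -/
abbrev Cf (A ι : Type) := Finset ι → A

/-- Pull back of a configuration along an injection. -/
def pull {A ι κ : Type} (φ : ι ↪ κ) (ω : Cf A κ) : Cf A ι := fun s => ω (s.map φ)

/-- Seeds: a finite type and, for every cardinality, a law. -/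
structure Seeds where
  S : Type
  [fin : Fintype S]
  law : ℕ → Law S

attribute [instance] Seeds.fin

/-- The product law on configurations. -/
noncomputable def Seeds.mu (D : Seeds) (ι : Type) [Fintype ι] [DecidableEq ι] :
    Law (Cf D.S ι) := Law.pi (fun s : Finset ι => D.law s.card)

/-- A symmetric function on configurations. -/
def Sym {A X : Type} {n : ℕ} (f : Cf A (Fin n) → X) : Prop :=
  ∀ (σ : Equiv.Perm (Fin n)) (ω : Cf A (Fin n)), f (pull σ.toEmbedding ω) = f ω

/-- Some enumeration of a finite set of points. -/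
noncomputable def emb {ι : Type} (Q : Finset ι) : Fin Q.card ↪ ι :=
  (Q.equivFin.symm.toEmbedding).trans (Function.Embedding.subtype _)

/-- Restriction of a configuration to a set of points (only symmetric functions are applied). -/
noncomputable def res {A ι : Type} (Q : Finset ι) (ω : Cf A ι) : Cf A (Fin Q.card) :=
  pull (emb Q) ω

/-- Restriction to the first `j` points (for `j ≤ K`; no proof is carried). -/
def fstc {A : Type} (j : ℕ) {K : ℕ} (ω : Cf A (Fin K)) : Cf A (Fin j) :=
  fun s => ω (univ.filter (fun y : Fin K => ∃ x ∈ s, (x : ℕ) = (y : ℕ)))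

/-- Replace the seeds at sets of first points. -/
def glueF {A : Type} {j K : ℕ} (θ : Cf A (Fin j)) (ω : Cf A (Fin K)) : Cf A (Fin K) :=
  fun s => if (∀ x ∈ s, (x : ℕ) < j) then
    θ (univ.filter (fun x : Fin j => ∃ y ∈ s, (y : ℕ) = (x : ℕ))) else ω s

/-- Coordinates in `S` from `a`, the others from `b`. -/
def glue {I : Type} [DecidableEq I] {A : I → Type} (S : Finset I) (a b : ∀ i, A i) : ∀ i, A i :=
  fun i => if i ∈ S then a i else b i

/-- A law preserving map of seeds. -/
structure SMap (D' D : Seeds) where
  f : D'.S → D.S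
  pres : ∀ (j : ℕ) (g : D.S → ℝ), (D'.law j).E (fun a => g (f a)) = (D.law j).E g

/-- The induced map on configurations. -/
def SMap.cf {D' D : Seeds} (p : SMap D' D) {ι : Type} (ω : Cf D'.S ι) : Cf D.S ι :=
  fun s => p.f (ω s)

/-! ### Tournaments and rich sets -/

/-- A tournament on `V`. -/
structure Tour (V : Type) where
  adj : V → V → Prop
  asymm : ∀ u v, adj u v → ¬ adj v u
  total : ∀ u v, u ≠ v → adj u v ∨ adj v u

open Classical in
/-- `hit c z = 1` if `c → z` or `c = z`. -/
noncomputable def hit {V : Type} (G : Tour V) (c z : V) : ℝ := if c = z ∨ G.adj c z then 1 else 0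

/-- `h`-rich sets: every set of at most `h` vertices is beaten by a member. -/
def Rich {V : Type} (G : Tour V) (h : ℕ) (S : Finset V) : Prop :=
  ∀ F : Finset V, F.card ≤ h → ∃ z ∈ S, ∀ f ∈ F, G.adj z f

/-! ### Systems -/

/-- A system over `V`: seeds and natural sets of vertices. -/
structure Sys (V : Type) where
  D : Seeds
  T : (N : ℕ) → Cf D.S (Fin N) → Finset V
  nat : ∀ {M N : ℕ} (φ : Fin M ↪ Fin N) (ω : Cf D.S (Fin N)), T N ω ⊆ T M (pull φ ω)

/-- Good systems. -/
def Sys.Good {V : Type} (G : Tour V) (S : Sys V) (h : ℕ) : Prop :=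
  1 ≤ h ∧ 1 - 1 / (h : ℝ) ≤ (S.D.mu (Fin h)).P (fun ω => Rich G h (S.T h ω))

/-- Refinements of systems. -/
structure Ref {V : Type} (S' S : Sys V) extends SMap S'.D S.D where
  sub : ∀ (N : ℕ) (ω : Cf S'.D.S (Fin N)), S'.T N ω ⊆ S.T N (fun s => f (ω s))

/-- Cut a system by a natural family of sets. -/
noncomputable def Sys.cutN {V : Type} [DecidableEq V] (S : Sys V)
    (W : (N : ℕ) → Cf S.D.S (Fin N) → Finset V)
    (hW : ∀ {M N : ℕ} (φ : Fin M ↪ Fin N) (ω : Cf S.D.S (Fin N)), W N ω ⊆ W M (pull φ ω)) :
    Sys V where
  D := S.D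
  T := fun N ω => S.T N ω ∩ W N ω
  nat := fun φ ω => Finset.inter_subset_inter (S.nat φ ω) (hW φ ω)

/-- Cut a system by a set depending on the seed of the empty set. -/
noncomputable def Sys.cut {V : Type} [DecidableEq V] (S : Sys V) (T2 : S.D.S → Finset V) :
    Sys V :=
  S.cutN (fun _ ω => T2 (ω ∅)) (fun φ ω => by simp [pull])

/-! ### Laws on vertices -/

/-- Mean of the functions `hit . z` for `z` sampled from `η`. -/
noncomputable def mean {V : Type} [Fintype V] (G : Tour V) (η : Law V) (c : V) : ℝ :=
  ∑ z, η.w z * hit G c z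

/-- Inner product of `L²(μ)`. -/
def ip {V : Type} [Fintype V] (μ : Law V) (f g : V → ℝ) : ℝ := ∑ c, μ.w c * (f c * g c)

/-- `u` is supported on `A`. -/
def Law.On {V : Type} [Fintype V] (u : Law V) (A : Finset V) : Prop := ∀ c, c ∉ A → u.w c = 0

/-- Some law on `A` hits every vertex of `B` with probability at least `r`. -/
def Hits {V : Type} [Fintype V] (G : Tour V) (A B : Finset V) (r : ℝ) : Prop :=
  ∃ u : Law V, u.On A ∧ ∀ z ∈ B, r ≤ ∑ c, u.w c * hit G c z

/-- The law of a sample of the kernel `u` given the configuration of the first `j` points. -/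
noncomputable def cnd {V : Type} [Fintype V] (D : Seeds) {K : ℕ} (u : Cf D.S (Fin K) → Law V)
    (j : ℕ) (θ : Cf D.S (Fin j)) : Law V :=
  Law.mix (D.mu (Fin K)) (fun ω => u (glueF θ ω))

end Pool.Agent.H51.PT
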