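import Mathlib
import Pool.Agent.H51.PT.Defs

set_option autoImplicit false

/-!
Basic lemmas on finite laws.
-/

namespace Pool.Agent.H51.PT

open Finset

namespace Law

variable {α β : Type} [Fintype α] [Fintype β] (μ : Law α)

theorem E_congr {f g : α → ℝ} (h : ∀ a, f a = g a) : μ.E f = μ.E g := by
  unfold E
  exact Finset.sum_congr rfl fun a _ => by rw [h a]

theorem E_add (f g : α → ℝ) : μ.E (fun a => f a + g a) = μ.E f + μ.E g := by
  unfold E
  rw [← Finset.sum_add_distrib]
  exact Finset.sum_congr rfl fun a _ => by ring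

theorem E_sub (f g : α → ℝ) : μ.E (fun a => f a - g a) = μ.E f - μ.E g := by
  unfold E
  rw [← Finset.sum_sub_distrib]
  exact Finset.sum_congr rfl fun a _ => by ring

theorem E_neg (f : α → ℝ) : μ.E (fun a => - f a) = - μ.E f := by
  unfold E
  rw [← Finset.sum_neg_distrib]
  exact Finset.sum_congr rfl fun a _ => by ring

theorem E_const_mul (c : ℝ) (f : α → ℝ) : μ.E (fun a => c * f a) = c * μ.E f := by
  unfold E
  rw [Finset.mul_sum]
  exact Finset.sum_congr rfl fun a _ => by ring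

theorem E_mul_const (c : ℝ) (f : α → ℝ) : μ.E (fun a => f a * c) = μ.E f * c := by
  unfold E
  rw [Finset.sum_mul]
  exact Finset.sum_congr rfl fun a _ => by ring

theorem E_const (c : ℝ) : μ.E (fun _ => c) = c := by
  unfold E
  rw [← Finset.sum_mul, μ.one, one_mul]

theorem E_sum {κ : Type} (s : Finset κ) (f : κ → α → ℝ) :
    μ.E (fun a => ∑ k ∈ s, f k a) = ∑ k ∈ s, μ.E (f k) := by
  unfold E
  rw [Finset.sum_comm]
  exact Finset.sum_congr rfl fun a _ => by rw [Finset.mul_sum]

theorem E_mono {f g : α → ℝ} (h : ∀ a, f a ≤ g a) : μ.E f ≤ μ.E g := by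
  unfold E
  exact Finset.sum_le_sum fun a _ => mul_le_mul_of_nonneg_left (h a) (μ.nn a)

/-- Monotonicity, only points of positive weight matter. -/
theorem E_mono_pos {f g : α → ℝ} (h : ∀ a, 0 < μ.w a → f a ≤ g a) : μ.E f ≤ μ.E g := by
  unfold E
  refine Finset.sum_le_sum fun a _ => ?_
  rcases (μ.nn a).lt_or_eq with h0 | h0
  · exact mul_le_mul_of_nonneg_left (h a h0) h0.le
  · rw [← h0, zero_mul, zero_mul]

theorem E_nonneg {f : α → ℝ} (h : ∀ a, 0 ≤ f a) : 0 ≤ μ.E f := by
  unfold E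
  exact Finset.sum_nonneg fun a _ => mul_nonneg (μ.nn a) (h a)

theorem E_le {f : α → ℝ} {c : ℝ} (h : ∀ a, f a ≤ c) : μ.E f ≤ c := by
  rw [← μ.E_const c]
  exact μ.E_mono h

theorem le_E {f : α → ℝ} {c : ℝ} (h : ∀ a, c ≤ f a) : c ≤ μ.E f := by
  rw [← μ.E_const c]
  exact μ.E_mono h

theorem abs_E_le (f : α → ℝ) : |μ.E f| ≤ μ.E (fun a => |f a|) := by
  rw [abs_le]
  constructor
  · rw [← E_neg]
    exact μ.E_mono fun a => neg_abs_le (f a)
  · exact μ.E_mono fun a => le_abs_self (f a)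

theorem E_comm (ν : Law β) (f : α → β → ℝ) :
    μ.E (fun a => ν.E (fun b => f a b)) = ν.E (fun b => μ.E (fun a => f a b)) := by
  unfold E
  simp only [Finset.mul_sum]
  rw [Finset.sum_comm]
  exact Finset.sum_congr rfl fun b _ => Finset.sum_congr rfl fun a _ => by ring

open Classical in
theorem P_eq_E (p : α → Prop) : μ.P p = μ.E (fun a => if p a then 1 else 0) := by
  unfold P E
  exact Finset.sum_congr rfl fun a _ => by by_cases h : p a <;> simp [h]

theorem P_nonneg (p : α → Prop) : 0 ≤ μ.P p := by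
  classical
  rw [P_eq_E]
  exact μ.E_nonneg fun a => by split_ifs <;> norm_num

theorem P_le_one (p : α → Prop) : μ.P p ≤ 1 := by
  classical
  rw [P_eq_E]
  exact μ.E_le fun a => by split_ifs <;> norm_num

theorem P_mono {p q : α → Prop} (h : ∀ a, p a → q a) : μ.P p ≤ μ.P q := by
  classical
  rw [P_eq_E, P_eq_E]
  refine μ.E_mono fun a => ?_
  have := h a
  split_ifs <;> simp_all

theorem P_congr {p q : α → Prop} (h : ∀ a, p a ↔ q a) : μ.P p = μ.P q :=
  le_antisymm (μ.P_mono fun a => (h a).1) (μ.P_mono fun a => (h a).2)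

theorem P_true : μ.P (fun _ => True) = 1 := by
  classical
  rw [P_eq_E]
  simpa using μ.E_const 1

theorem P_false : μ.P (fun _ => False) = 0 := by
  classical
  rw [P_eq_E]
  simpa using μ.E_const 0

theorem P_add_not (p : α → Prop) : μ.P p + μ.P (fun a => ¬ p a) = 1 := by
  classical
  rw [P_eq_E, P_eq_E, ← E_add]
  calc _ = μ.E (fun _ => (1 : ℝ)) := μ.E_congr fun a => by
        by_cases h : p a <;> simp [h]
    _ = 1 := μ.E_const 1

theorem P_or_le (p q : α → Prop) : μ.P (fun a => p a ∨ q a) ≤ μ.P p + μ.P q := by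
  classical
  rw [P_eq_E, P_eq_E, P_eq_E, ← E_add]
  refine μ.E_mono fun a => ?_
  by_cases h1 : p a <;> by_cases h2 : q a <;> simp [h1, h2]

theorem P_exists_le {κ : Type} (s : Finset κ) (p : κ → α → Prop) :
    μ.P (fun a => ∃ k ∈ s, p k a) ≤ ∑ k ∈ s, μ.P (p k) := by
  classical
  simp only [P_eq_E]
  rw [← E_sum]
  refine μ.E_mono fun a => ?_
  have hn : ∀ k ∈ s, (0 : ℝ) ≤ (if p k a then 1 else 0) := fun k _ => by split_ifs <;> norm_num
  by_cases h : ∃ k ∈ s, p k a
  · obtain ⟨k, hk, hpk⟩ := h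
    have h1 := Finset.single_le_sum hn hk
    rw [if_pos hpk] at h1
    rw [if_pos ⟨k, hk, hpk⟩]
    exact h1
  · rw [if_neg h]
    exact Finset.sum_nonneg hn

/-- Markov inequality. -/
theorem markov {f : α → ℝ} (hf : ∀ a, 0 ≤ f a) (c : ℝ) :
    c * μ.P (fun a => c ≤ f a) ≤ μ.E f := by
  classical
  rw [P_eq_E, ← E_const_mul]
  refine μ.E_mono fun a => ?_
  have := hf a
  split_ifs with h
  · simpa using h
  · simpa using this

/-- A bounded function: the mean is at most `c` plus the probability of being larger. -/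
theorem E_le_add_P {f : α → ℝ} (h1 : ∀ a, f a ≤ 1) {c : ℝ} (hc : 0 ≤ c) :
    μ.E f ≤ c + μ.P (fun a => c < f a) := by
  classical
  rw [P_eq_E]
  calc μ.E f ≤ μ.E (fun a => c + (if c < f a then 1 else 0)) := μ.E_mono fun a => by
        have := h1 a
        split_ifs with h
        · linarith
        · push Not at h
          linarith
    _ = _ := by rw [E_add, E_const]

/-- Cauchy-Schwarz. -/
theorem E_mul_sq_le (f g : α → ℝ) :
    (μ.E (fun a => f a * g a)) ^ 2 ≤ μ.E (fun a => f a ^ 2) * μ.E (fun a => g a ^ 2) := by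
  have key := Finset.sum_mul_sq_le_sq_mul_sq (univ : Finset α)
    (fun a => Real.sqrt (μ.w a) * f a) (fun a => Real.sqrt (μ.w a) * g a)
  have hs : ∀ a, Real.sqrt (μ.w a) * Real.sqrt (μ.w a) = μ.w a := fun a =>
    Real.mul_self_sqrt (μ.nn a)
  unfold E
  have e1 : ∑ a, μ.w a * (f a * g a) =
      ∑ a, Real.sqrt (μ.w a) * f a * (Real.sqrt (μ.w a) * g a) :=
    Finset.sum_congr rfl fun a _ => by
      conv_lhs => rw [← hs a]
      ring
  have e2 : ∀ f : α → ℝ, ∑ a, μ.w a * f a ^ 2 = ∑ a, (Real.sqrt (μ.w a) * f a) ^ 2 := fun f =>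
    Finset.sum_congr rfl fun a _ => by
      conv_lhs => rw [← hs a]
      ring
  rw [e1, e2 f, e2 g]
  exact key

/-- Jensen for the square. -/
theorem E_sq_le (f : α → ℝ) : (μ.E f) ^ 2 ≤ μ.E (fun a => f a ^ 2) := by
  have h := μ.E_mul_sq_le f (fun _ => 1)
  simp only [mul_one, one_pow, E_const] at h
  exact h

theorem E_abs_le_sqrt (f : α → ℝ) : μ.E (fun a => |f a|) ≤ Real.sqrt (μ.E (fun a => f a ^ 2)) := by
  apply Real.le_sqrt_of_sq_le
  have h := μ.E_sq_le (fun a => |f a|)
  simpa only [sq_abs] using h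

/-- Jensen for the square root. -/
theorem E_sqrt_le {f : α → ℝ} (hf : ∀ a, 0 ≤ f a) :
    μ.E (fun a => Real.sqrt (f a)) ≤ Real.sqrt (μ.E f) := by
  apply Real.le_sqrt_of_sq_le
  have h := μ.E_sq_le (fun a => Real.sqrt (f a))
  refine h.trans (le_of_eq (μ.E_congr fun a => Real.sq_sqrt (hf a)))

theorem exists_le_E (f : α → ℝ) : ∃ a, 0 < μ.w a ∧ f a ≤ μ.E f := by
  by_contra hcon
  push Not at hcon
  have hpos : ∃ a, 0 < μ.w a := by
    by_contra h
    push Not at h
    have h0 : ∑ a, μ.w a = 0 := Finset.sum_eq_zero fun a _ => le_antisymm (h a) (μ.nn a)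
    rw [μ.one] at h0
    norm_num at h0
  obtain ⟨a0, ha0⟩ := hpos
  have : μ.E (fun _ => μ.E f) < μ.E f := by
    conv_rhs => unfold E
    conv_lhs => unfold E
    refine Finset.sum_lt_sum (fun a _ => ?_) ⟨a0, mem_univ _, ?_⟩
    · rcases (μ.nn a).lt_or_eq with h | h
      · exact mul_le_mul_of_nonneg_left (hcon a h).le h.le
      · rw [← h]
        simp
    · exact mul_lt_mul_of_pos_left (hcon a0 ha0) ha0
  rw [E_const] at this
  exact lt_irrefl _ this

theorem exists_ge_E (f : α → ℝ) : ∃ a, 0 < μ.w a ∧ μ.E f ≤ f a := by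
  obtain ⟨a, h1, h2⟩ := μ.exists_le_E (fun a => - f a)
  rw [E_neg] at h2
  exact ⟨a, h1, by linarith⟩

/-- If an event has probability less than one, some point of positive weight avoids it. -/
theorem exists_not_of_P_lt_one {p : α → Prop} (h : μ.P p < 1) : ∃ a, 0 < μ.w a ∧ ¬ p a := by
  classical
  rw [P_eq_E] at h
  obtain ⟨a, h1, h2⟩ := μ.exists_le_E (fun a => if p a then 1 else 0)
  refine ⟨a, h1, fun hp => ?_⟩
  rw [if_pos hp] at h2
  linarith

theorem w_le_one (a : α) : μ.w a ≤ 1 := by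
  rw [← μ.one]
  exact Finset.single_le_sum (fun b _ => μ.nn b) (mem_univ a)

theorem E_prod (κ : α → Law β) (f : α × β → ℝ) :
    (Law.prod μ κ).E f = μ.E (fun a => (κ a).E (fun b => f (a, b))) := by
  unfold E Law.prod
  rw [Fintype.sum_prod_type]
  refine Finset.sum_congr rfl fun a _ => ?_
  rw [Finset.mul_sum]
  exact Finset.sum_congr rfl fun b _ => by ring

theorem E_mix (κ : α → Law β) (f : β → ℝ) :
    (Law.mix μ κ).E f = μ.E (fun a => (κ a).E f) := by
  unfold E Law.mix
  simp only [Finset.sum_mul, Finset.mul_sum]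
  rw [Finset.sum_comm]
  exact Finset.sum_congr rfl fun a _ => Finset.sum_congr rfl fun b _ => by ring

theorem P_inter_le (p q : α → Prop) : μ.P (fun a => p a ∧ q a) ≤ μ.P p :=
  μ.P_mono fun _ h => h.1

theorem w_eq_P (a : α) : μ.w a = μ.P (fun b => b = a) := by
  classical
  unfold P
  rw [Finset.sum_eq_single a]
  · simp
  · intro b _ hb
    simp [hb]
  · simp

theorem ext_w {μ ν : Law α} (h : ∀ a, μ.w a = ν.w a) : μ = ν := by
  cases μ
  cases ν
  congr
  exact funext h

theorem E_dirac {α : Type} [Fintype α] (a : α) (f : α → ℝ) : (Law.dirac a).E f = f a := by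
  classical
  unfold E Law.dirac
  rw [Finset.sum_eq_single a]
  · simp
  · intro b _ hb
    simp [hb]
  · simp

theorem E_map {α β : Type} [Fintype α] [Fintype β] (μ : Law α) (f : α → β) (g : β → ℝ) :
    (μ.map f).E g = μ.E (fun a => g (f a)) := by
  unfold Law.map
  rw [E_mix]
  exact μ.E_congr fun a => E_dirac _ _

theorem E_unif {α : Type} [Fintype α] (s : Finset α) (hs : s.Nonempty) (f : α → ℝ) :
    (Law.unif s hs).E f = (∑ a ∈ s, f a) / s.card := by
  classical
  unfold E Law.unif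
  simp only [ite_mul, zero_mul]
  rw [Finset.sum_ite_mem, Finset.univ_inter, Finset.sum_div]
  exact Finset.sum_congr rfl fun a _ => by ring

end Law

/-! ### Systems and richness -/

theorem Rich.mono {V : Type} {G : Tour V} {h h' : ℕ} {S S' : Finset V} (hS : Rich G h S)
    (hh : h' ≤ h) (hs : S ⊆ S') : Rich G h' S' := by
  intro F hF
  obtain ⟨z, hz, hz2⟩ := hS F (hF.trans hh)
  exact ⟨z, hs hz, hz2⟩

theorem Rich.inter {V : Type} [DecidableEq V] {G : Tour V} {h f : ℕ} {S : Finset V}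
    (hS : Rich G h S) (F : Finset V) (hF : F.card ≤ f) (hf : f ≤ h)
    [DecidablePred fun z => ∀ x ∈ F, G.adj z x] :
    Rich G (h - f) (S.filter (fun z => ∀ x ∈ F, G.adj z x)) := by
  intro F' hF'
  obtain ⟨z, hz, hz2⟩ := hS (F ∪ F') ((Finset.card_union_le _ _).trans (by omega))
  refine ⟨z, ?_, fun x hx => hz2 x (Finset.mem_union_right _ hx)⟩
  rw [Finset.mem_filter]
  exact ⟨hz, fun x hx => hz2 x (Finset.mem_union_left _ hx)⟩

/-- One of `|X|` cells of an `|X| h`-rich set is `h`-rich. -/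
theorem Rich.pigeon {V X : Type} [Fintype X] [DecidableEq X] [DecidableEq V] {G : Tour V}
    {h : ℕ} {S : Finset V} (hS : Rich G (Fintype.card X * h) S) (c : V → X) :
    ∃ x, Rich G h (S.filter (fun z => c z = x)) := by
  classical
  by_contra hcon
  push Not at hcon
  unfold Rich at hcon
  push Not at hcon
  choose F hF1 hF2 using hcon
  obtain ⟨z, hz, hz2⟩ := hS (univ.biUnion F) (by
    refine Finset.card_biUnion_le.trans ?_
    refine (Finset.sum_le_sum fun x _ => hF1 x).trans ?_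
    simp)
  obtain ⟨f, hf, hf2⟩ := hF2 (c z) z (Finset.mem_filter.mpr ⟨hz, rfl⟩)
  exact hf2 (hz2 f (Finset.mem_biUnion.mpr ⟨c z, mem_univ _, hf⟩))

theorem Rich.nonempty {V : Type} {G : Tour V} {h : ℕ} {S : Finset V} (hS : Rich G h S) :
    S.Nonempty := by
  obtain ⟨z, hz, _⟩ := hS ∅ (by simp)
  exact ⟨z, hz⟩

theorem hit_nonneg {V : Type} (G : Tour V) (c z : V) : 0 ≤ hit G c z := by
  unfold hit
  split_ifs <;> norm_num

theorem hit_le_one {V : Type} (G : Tour V) (c z : V) : hit G c z ≤ 1 := by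
  unfold hit
  split_ifs <;> norm_num

/-- `hit` is total. -/
theorem one_le_hit_add {V : Type} (G : Tour V) (c z : V) : 1 ≤ hit G c z + hit G z c := by
  unfold hit
  by_cases h : c = z
  · simp [h]
  · rcases G.total c z h with h1 | h1
    · rw [if_pos (Or.inr h1)]
      split_ifs <;> norm_num
    · rw [if_pos (c := z = c ∨ G.adj z c) (Or.inr h1)]
      split_ifs <;> norm_num

/-- Composition of maps of seeds. -/
def SMap.comp {D'' D' D : Seeds} (p : SMap D' D) (q : SMap D'' D') : SMap D'' D where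
  f := fun a => p.f (q.f a)
  pres := fun j g => by
    rw [q.pres j (fun a => g (p.f a)), p.pres j g]

/-- Identity map of seeds. -/
def SMap.id (D : Seeds) : SMap D D where
  f := fun a => a
  pres := fun _ _ => rfl

/-- Composition of refinements. -/
def Ref.comp {V : Type} {S'' S' S : Sys V} (p : Ref S' S) (q : Ref S'' S') : Ref S'' S where
  toSMap := p.toSMap.comp q.toSMap
  sub := fun N ω => (q.sub N ω).trans (p.sub N _)

/-- Identity refinement. -/
def Ref.id {V : Type} (S : Sys V) : Ref S S where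
  toSMap := SMap.id S.D
  sub := fun _ _ => subset_rfl

/-- The cut system refines. -/
noncomputable def Ref.cutN {V : Type} [DecidableEq V] (S : Sys V)
    (W : (N : ℕ) → Cf S.D.S (Fin N) → Finset V)
    (hW : ∀ {M N : ℕ} (φ : Fin M ↪ Fin N) (ω : Cf S.D.S (Fin N)), W N ω ⊆ W M (pull φ ω)) :
    Ref (S.cutN W hW) S where
  toSMap := SMap.id S.D
  sub := fun _ _ => Finset.inter_subset_left

end Pool.Agent.H51.PT
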