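import Mathlib
import Pool.Agent.H51.PT.Tool

set_option autoImplicit false

/-!
MP_c1331e_co: definitions and targets of the construction half.
-/

namespace Pool.Agent.H51.PT

open Finset

/-! ### Toolkit targets -/

/-- GLUE: resampling the coordinates outside `S` preserves a product law. -/
def T_GLUE : Prop :=
  ∀ (I : Type) [Fintype I] [DecidableEq I] (A : I → Type) [∀ i, Fintype (A i)]
    (μ : ∀ i, Law (A i)) (S : Finset I) (f : (∀ i, A i) → ℝ),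
    (Law.pi μ).E (fun a => (Law.pi μ).E (fun b => f (glue S a b))) = (Law.pi μ).E f

/-- INDEP: conditional independence given the common coordinates. -/
def T_INDEP : Prop :=
  ∀ (I : Type) [Fintype I] [DecidableEq I] (A : I → Type) [∀ i, Fintype (A i)]
    (μ : ∀ i, Law (A i)) (S S' : Finset I) (f g : (∀ i, A i) → ℝ),
    (∀ a b, (∀ i ∈ S, a i = b i) → f a = f b) → (∀ a b, (∀ i ∈ S', a i = b i) → g a = g b) →
    (Law.pi μ).E (fun a => f a * g a) =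
      (Law.pi μ).E (fun a => (Law.pi μ).E (fun b => f (glue (S ∩ S') a b)) *
        (Law.pi μ).E (fun b => g (glue (S ∩ S') a b)))

/-- RESTR: restriction of a product law along an injection of the index set. -/
def T_RESTR : Prop :=
  ∀ (I I' : Type) [Fintype I] [DecidableEq I] [Fintype I'] [DecidableEq I'] (A : I → Type)
    [∀ i, Fintype (A i)] (μ : ∀ i, Law (A i)) (e : I' ↪ I) (g : (∀ i, A (e i)) → ℝ),
    (Law.pi μ).E (fun a => g (fun i => a (e i))) = (Law.pi (fun i => μ (e i))).E g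

/-- MAPPI: a product of law preserving maps preserves product laws. -/
def T_MAPPI : Prop :=
  ∀ (I : Type) [Fintype I] [DecidableEq I] (A B : I → Type) [∀ i, Fintype (A i)]
    [∀ i, Fintype (B i)] (μ : ∀ i, Law (A i)) (ν : ∀ i, Law (B i)) (f : ∀ i, A i → B i),
    (∀ i (g : B i → ℝ), (μ i).E (fun a => g (f i a)) = (ν i).E g) →
    ∀ g : (∀ i, B i) → ℝ, (Law.pi μ).E (fun a => g (fun i => f i (a i))) = (Law.pi ν).E g

/-- PULL: pulling back configurations preserves the laws. -/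
def T_PULL : Prop :=
  ∀ (D : Seeds) (ι κ : Type) [Fintype ι] [DecidableEq ι] [Fintype κ] [DecidableEq κ]
    (φ : ι ↪ κ) (g : Cf D.S ι → ℝ), (D.mu κ).E (fun ω => g (pull φ ω)) = (D.mu ι).E g

/-- CFM: maps of seeds preserve the laws of configurations. -/
def T_CFM : Prop :=
  ∀ (D' D : Seeds) (p : SMap D' D) (ι : Type) [Fintype ι] [DecidableEq ι]
    (g : Cf D.S ι → ℝ), (D'.mu ι).E (fun ω => g (p.cf ω)) = (D.mu ι).E g

/-- GLF: gluing the configuration of the first points. -/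
def T_GLF : Prop :=
  (∀ (A : Type) (j K : ℕ), j ≤ K → ∀ (θ : Cf A (Fin j)) (ω : Cf A (Fin K)),
    fstc j (glueF θ ω) = θ) ∧
  (∀ (A : Type) (j K : ℕ) (h : j ≤ K) (ω : Cf A (Fin K)),
    fstc j ω = pull (Fin.castLEEmb h) ω) ∧
  (∀ (A : Type) (j K : ℕ), j ≤ K → ∀ (ω : Cf A (Fin K)) (ω' : Cf A (Fin K)),
    glueF (fstc j ω) ω' = glue (univ.filter (fun s : Finset (Fin K) => ∀ x ∈ s, (x : ℕ) < j))
      ω ω') ∧
  (∀ (D : Seeds) (j K : ℕ), j ≤ K → ∀ f : Cf D.S (Fin K) → ℝ,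
    (D.mu (Fin j)).E (fun θ => (D.mu (Fin K)).E (fun ω => f (glueF θ ω))) =
      (D.mu (Fin K)).E f)

/-- CI: two sets of points with common part the first `j` points of both are conditionally
independent. -/
def T_CI : Prop :=
  ∀ (D : Seeds) (ι : Type) [Fintype ι] [DecidableEq ι] (j K K' : ℕ) (hj : j ≤ K) (hj' : j ≤ K')
    (b : Fin K ↪ ι) (b' : Fin K' ↪ ι),
    (∀ x : Fin j, b (Fin.castLE hj x) = b' (Fin.castLE hj' x)) →
    (∀ x x', b x = b' x' → (x : ℕ) < j) →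
    ∀ (f : Cf D.S (Fin K) → ℝ) (g : Cf D.S (Fin K') → ℝ) (φ : Cf D.S (Fin j) → ℝ),
    (D.mu ι).E (fun ω => φ (fstc j (pull b ω)) * f (pull b ω) * g (pull b' ω)) =
      (D.mu (Fin j)).E (fun θ => φ θ * (D.mu (Fin K)).E (fun ω => f (glueF θ ω)) *
        (D.mu (Fin K')).E (fun ω => g (glueF θ ω)))

/-- CNDP: basic properties of the conditional kernel: it is symmetric, compatible with maps of
seeds, `cnd K = u`, and in any ambient configuration it is the resampled kernel. -/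
def T_CNDP : Prop :=
  ∀ (V : Type) [Fintype V],
  (∀ (D : Seeds) (K : ℕ) (u : Cf D.S (Fin K) → Law V), Sym u → ∀ j ≤ K, Sym (cnd D u j)) ∧
  (∀ (D' D : Seeds) (p : SMap D' D) (K : ℕ) (u : Cf D.S (Fin K) → Law V) (j : ℕ), j ≤ K →
    ∀ θ : Cf D'.S (Fin j), cnd D' (fun ω => u (p.cf ω)) j θ = cnd D u j (p.cf θ)) ∧
  (∀ (D : Seeds) (ι : Type) [Fintype ι] [DecidableEq ι] (K j : ℕ) (hj : j ≤ K)
    (u : Cf D.S (Fin K) → Law V) (b : Fin K ↪ ι) (ω : Cf D.S ι) (c : V),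
    (cnd D u j (fstc j (pull b ω))).w c = (D.mu ι).E (fun ω' =>
      (u (pull b (glue ((univ.map ((Fin.castLEEmb hj).trans b)).powerset) ω ω'))).w c)) ∧
  (∀ (D : Seeds) (K j : ℕ), j ≤ K → ∀ (u : Cf D.S (Fin K) → Law V)
    (f : Cf D.S (Fin j) → V → ℝ),
    (D.mu (Fin K)).E (fun ω => (u ω).E (f (fstc j ω))) =
      (D.mu (Fin j)).E (fun θ => (cnd D u j θ).E (f θ)))

/-- EMP: splitting off the seed of the empty set; disjoint sets of points are independent given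
that seed. -/
def T_EMP : Prop :=
  (∀ (D : Seeds) (ι : Type) [Fintype ι] [DecidableEq ι] (f : Cf D.S ι → ℝ),
    (D.mu ι).E f = (D.law 0).E (fun g => (D.mu ι).E (fun ω => f (Function.update ω ∅ g)))) ∧
  (∀ (D : Seeds) (ι κ κ' : Type) [Fintype ι] [DecidableEq ι] [Fintype κ] [DecidableEq κ]
    [Fintype κ'] [DecidableEq κ'] (b : κ ↪ ι) (b' : κ' ↪ ι), (∀ x y, b x ≠ b' y) →
    ∀ (a : D.S) (F : Cf D.S κ → Cf D.S κ' → ℝ),
    (D.mu ι).E (fun ω => F (pull b (Function.update ω ∅ a)) (pull b' (Function.update ω ∅ a))) =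
      (D.mu κ).E (fun ω => (D.mu κ').E (fun ω' =>
        F (Function.update ω ∅ a) (Function.update ω' ∅ a))))

/-- GDM: monotonicity of goodness. -/
def T_GDM : Prop :=
  ∀ (V : Type) (G : Tour V) (S : Sys V) (h : ℕ), S.Good G h →
    (∀ h' : ℕ, 1 ≤ h' → h' ≤ h → S.Good G h') ∧
    (∀ N ≤ h, ∀ h' ≤ h, 1 - 1 / (h : ℝ) ≤ (S.D.mu (Fin N)).P (fun ω => Rich G h' (S.T N ω))) ∧
    (∀ N ≤ h, (S.D.mu (Fin N)).P (fun ω => ¬ (S.T N ω).Nonempty) ≤ 1 / (h : ℝ))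

/-! ### Realisation and decision -/

/-- Exchangeable laws on configurations. -/
def Exch {A : Type} [Fintype A] {R : ℕ} (P : Law (Cf A (Fin R))) : Prop :=
  ∀ (σ : Equiv.Perm (Fin R)) (g : Cf A (Fin R) → ℝ),
    P.E (fun x => g (pull σ.toEmbedding x)) = P.E g

/-- The realisation property for labels on sets of fewer than `n` points. -/
def Realis (n : ℕ) : Prop :=
  ∀ (X : Type) [Fintype X] [Inhabited X] (N : ℕ) (ε : ℝ), 0 < ε → ∃ R : ℕ, N ≤ R ∧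
    ∀ (D : Seeds) (P : Law (Cf (D.S × X) (Fin R))), Exch P →
    (∀ g : Cf D.S (Fin R) → ℝ, P.E (fun x => g (fun s => (x s).1)) = (D.mu (Fin R)).E g) →
    ∃ (D' : Seeds) (p : SMap D' D) (a : (j : ℕ) → Cf D'.S (Fin j) → X),
      (∀ j, Sym (a j)) ∧
      ∀ g : Cf (D.S × X) (Fin N) → ℝ, (∀ x, |g x| ≤ 1) →
        |(D'.mu (Fin N)).E (fun ω => g (fun s =>
            (p.f (ω s), if s.card < n then a s.card (res s ω) else default))) -
          P.E (fun x => g (fun s =>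
            ((fstc N x s).1, if s.card < n then (fstc N x s).2 else default)))| ≤ ε

/-- REAL: the realisation lemma (finite Aldous-Hoover theorem). -/
def T_REAL : Prop := ∀ n : ℕ, Realis n

/-- REALS: the induction step. -/
def T_REALS : Prop := ∀ m : ℕ, Realis m → Realis (m + 1)

open Classical in
/-- Energy of `Y` given `f` under `P`. -/
noncomputable def enr {Ω X β : Type} [Fintype Ω] [Fintype X] [Fintype β] (P : Law Ω)
    (Y : Ω → X) (f : Ω → β) : ℝ :=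
  ∑ b, ∑ x, (P.P (fun o => f o = b ∧ Y o = x)) ^ 2 / P.P (fun o => f o = b)

/-- ENR: basic properties of the energy. -/
def T_ENR : Prop :=
  (∀ (Ω X β : Type) [Fintype Ω] [Fintype X] [Fintype β] (P : Law Ω) (Y : Ω → X) (f : Ω → β),
    0 ≤ enr P Y f ∧ enr P Y f ≤ 1) ∧
  (∀ (Ω X β γ : Type) [Fintype Ω] [Fintype X] [Fintype β] [Fintype γ] (P : Law Ω) (Y : Ω → X)
    (f : Ω → β) (h : β → γ), enr P Y (fun o => h (f o)) ≤ enr P Y f) ∧
  (∀ (Ω Ω' X β : Type) [Fintype Ω] [Fintype Ω'] [Fintype X] [Fintype β] (P : Law Ω)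
    (P' : Law Ω') (Y : Ω → X) (f : Ω → β) (Y' : Ω' → X) (f' : Ω' → β),
    (∀ g : β × X → ℝ, P.E (fun o => g (f o, Y o)) = P'.E (fun o => g (f' o, Y' o))) →
    enr P Y f = enr P' Y' f') ∧
  (∀ (Ω X β γ : Type) [Fintype Ω] [Fintype X] [Fintype β] [Fintype γ] (P : Law Ω) (Y : Ω → X)
    (f : Ω → β) (h : β → γ) (κ : γ → Law X),
    (∀ c x, 0 < P.P (fun o => h (f o) = c) → (κ c).w x =
      P.P (fun o => h (f o) = c ∧ Y o = x) / P.P (fun o => h (f o) = c)) →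
    ∑ b, ∑ x, |P.P (fun o => f o = b ∧ Y o = x) - P.P (fun o => f o = b) * (κ (h b)).w x| ≤
      Real.sqrt (Fintype.card X * (enr P Y f - enr P Y (fun o => h (f o)))))

/-- HYB: sampling finitely many variables independently from approximate conditional laws. -/
def T_HYB : Prop :=
  ∀ (Ω α X : Type) [Fintype Ω] [Fintype α] [Fintype X] (P : Law Ω) (r : ℕ) (A : Ω → α)
    (Y : Fin r → Ω → X) (κ : Fin r → α → Law X) (ε : Fin r → ℝ),
    (∀ i : Fin r, ∑ b : α × (Fin r → Option X), ∑ x,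
      |P.P (fun o => (A o, fun k => if k < i then some (Y k o) else none) = b ∧ Y i o = x) -
        P.P (fun o => (A o, fun k => if k < i then some (Y k o) else none) = b) *
          (κ i b.1).w x| ≤ ε i) →
    ∀ g : α × (Fin r → X) → ℝ, (∀ x, |g x| ≤ 1) →
      |P.E (fun o => (Law.pi (fun i => κ i (A o))).E (fun y => g (A o, y))) -
        P.E (fun o => g (A o, fun i => Y i o))| ≤ ∑ i, ε i

/-- Pool points and real points inside `Fin R`. -/
def embR {q N R : ℕ} (h : q + N ≤ R) : Fin q ⊕ Fin N ↪ Fin R :=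
  (finSumFinEquiv.toEmbedding).trans (Fin.castLEEmb h)

/-- Hide the labels of the real `m`-sets and of the sets with more than `m` points. -/
def hidR {S X : Type} [Inhabited X] (m : ℕ) {q N : ℕ} (y : Cf (S × X) (Fin q ⊕ Fin N)) :
    Cf (S × X) (Fin q ⊕ Fin N) :=
  fun s => ((y s).1, if s.card ≤ m ∧ ¬ (s.card = m ∧ ∀ x ∈ s, x.isRight = true) then
    (y s).2 else default)

/-- Hide the labels of the sets with more than `m` points. -/
def hidM {S X ι : Type} [Inhabited X] (m : ℕ) (y : Cf (S × X) ι) : Cf (S × X) ι :=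
  fun s => ((y s).1, if s.card ≤ m then (y s).2 else default)

/-- Fill in labels of the real `m`-sets. -/
noncomputable def fillR {S X : Type} (m : ℕ) {q N : ℕ} (y : Cf (S × X) (Fin q ⊕ Fin N))
    (o : Finset (Fin N) → X) : Cf (S × X) (Fin q ⊕ Fin N) :=
  fun s => ((y s).1, if s.card = m ∧ (∀ x ∈ s, x.isRight = true) then
    o (s.preimage Sum.inr Sum.inr_injective.injOn) else (y s).2)

/-- Restriction to the pool and a set of real points. -/
noncomputable def resP {A : Type} {q N : ℕ} (t : Finset (Fin N)) (y : Cf A (Fin q ⊕ Fin N)) :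
    Cf A (Fin q ⊕ Fin t.card) :=
  pull (Function.Embedding.sumMap (Function.Embedding.refl (Fin q)) (emb t)) y

/-- REALA: for a suitable pool, the labels of the real `m`-sets of an exchangeable law are almost
independent samples given the pool and the lower labels. -/
def T_REALA : Prop :=
  ∀ (m : ℕ) (X : Type) [Fintype X] [Inhabited X] (N : ℕ) (ε : ℝ), 0 < ε → ∃ I : ℕ, 0 < I ∧
    ∀ (S : Type) [Fintype S] (R : ℕ) (P : Law (Cf (S × X) (Fin R))), Exch P →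
    (I + 1) * N + m ≤ R →
    ∃ i < I, ∃ κ : (j : ℕ) → Cf (S × X) (Fin (i * N) ⊕ Fin j) → Law X,
      (∀ (j : ℕ) (σ : Equiv.Perm (Fin j)) (z : Cf (S × X) (Fin (i * N) ⊕ Fin j)),
        κ j (pull (Function.Embedding.sumMap (Function.Embedding.refl _) σ.toEmbedding) z) =
          κ j z) ∧
      ∀ h : i * N + N ≤ R, ∀ g : Cf (S × X) (Fin (i * N) ⊕ Fin N) → ℝ, (∀ y, |g y| ≤ 1) →
        |P.E (fun x => (Law.pi (fun t : Finset (Fin N) =>
            κ t.card (resP t (hidR m (pull (embR h) x))))).E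
              (fun o => g (fillR m (hidR m (pull (embR h) x)) o))) -
          P.E (fun x => g (hidM m (pull (embR h) x)))| ≤ ε

/-- Pooled seeds. -/
noncomputable def Seeds.pool (D : Seeds) (q : ℕ) : Seeds where
  S := Cf D.S (Fin q)
  law := fun j => Law.pi (fun A : Finset (Fin q) => D.law (j + A.card))

/-- Pooled configurations as configurations with pool points. -/
noncomputable def unpool {A ι : Type} [DecidableEq ι] {q : ℕ} (ω : Cf (Cf A (Fin q)) ι) : Cf A (Fin q ⊕ ι) :=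
  fun s => ω (s.preimage Sum.inr Sum.inr_injective.injOn)
    (s.preimage Sum.inl Sum.inl_injective.injOn)

/-- POOL: pooled seeds. -/
def T_POOL : Prop :=
  ∀ (D : Seeds) (q : ℕ),
    (∀ (j : ℕ) (g : D.S → ℝ), ((D.pool q).law j).E (fun a => g (a ∅)) = (D.law j).E g) ∧
    (∀ (ι : Type) [Fintype ι] [DecidableEq ι] (g : Cf D.S (Fin q ⊕ ι) → ℝ),
      ((D.pool q).mu ι).E (fun ω => g (unpool ω)) = (D.mu (Fin q ⊕ ι)).E g)

/-- ADD: adding independent samples of symmetric kernels. -/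
def T_ADD : Prop :=
  ∀ (D : Seeds) (n : ℕ) (O : Type) [Fintype O] [Inhabited O]
    (κ : (j : ℕ) → Cf D.S (Fin j) → Law O), (∀ j, Sym (κ j)) →
    ∃ (D' : Seeds) (p : SMap D' D) (val : (j : ℕ) → Cf D'.S (Fin j) → O),
      (∀ j, Sym (val j)) ∧
      (∀ j (ω ω' : Cf D'.S (Fin j)), (∀ s, p.f (ω s) = p.f (ω' s)) → ω univ = ω' univ →
        val j ω = val j ω') ∧
      (∀ j < n, ∀ (ω : Cf D'.S (Fin j)) (a0 : D'.S) (g : O → ℝ),
        (D'.law j).E (fun a => open Classical in if p.f a = p.f a0 then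
          g (val j (Function.update ω univ a)) else 0) =
        (D'.law j).P (fun a => p.f a = p.f a0) *
          (κ j (p.cf (Function.update ω univ a0))).E g) ∧
      (∀ (ι : Type) [Fintype ι] [DecidableEq ι] (Gf : Cf D.S ι → (Finset ι → O) → ℝ),
        (∀ ω o o', (∀ Q : Finset ι, Q.card < n → o Q = o' Q) → Gf ω o = Gf ω o') →
        (D'.mu ι).E (fun ω => Gf (p.cf ω) (fun Q => val Q.card (res Q ω))) =
          (D.mu ι).E (fun ω => (Law.pi (fun Q : Finset ι => κ Q.card (res Q ω))).E (Gf ω)))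

/-- DECS: the decision lemma for symmetric cell functions. -/
def T_DECS : Prop :=
  ∀ (n : ℕ) (X : Type) [Fintype X] [Inhabited X] (h' : ℕ), 1 ≤ h' → ∃ h : ℕ, 1 ≤ h ∧
    ∀ (V : Type) [Fintype V] [DecidableEq V] (G : Tour V) (S : Sys V), S.Good G h →
    ∀ Z : Cf S.D.S (Fin n) → V → X, Sym Z →
    ∃ (S' : Sys V) (r : Ref S' S) (a : Cf S'.D.S (Fin n) → X), S'.Good G h' ∧ Sym a ∧
      ∀ (N : ℕ) (ω : Cf S'.D.S (Fin N)), ∀ z ∈ S'.T N ω, ∀ ψ : Fin n ↪ Fin N,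
        Z (pull ψ (r.cf ω)) z = a (pull ψ ω)

/-- DEC: the decision lemma. -/
def T_DEC : Prop :=
  ∀ (n : ℕ) (X : Type) [Fintype X] [Inhabited X] (h' : ℕ), 1 ≤ h' → ∃ h : ℕ, 1 ≤ h ∧
    ∀ (V : Type) [Fintype V] [DecidableEq V] (G : Tour V) (S : Sys V), S.Good G h →
    ∀ Z : Cf S.D.S (Fin n) → V → X,
    ∃ (S' : Sys V) (r : Ref S' S) (a : Cf S'.D.S (Fin n) → X), S'.Good G h' ∧
      ∀ (N : ℕ) (ω : Cf S'.D.S (Fin N)), ∀ z ∈ S'.T N ω, ∀ ψ : Fin n ↪ Fin N,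
        Z (pull ψ (r.cf ω)) z = a (pull ψ ω)

/-! ### Values and the RR lemma -/

open Classical in
/-- Value of the game: how well laws on `A` can hit all of `B`. -/
noncomputable def val {V : Type} [Fintype V] (G : Tour V) (A B : Finset V) : ℝ :=
  if A = ∅ then 0 else if B = ∅ then 1 else sSup {r : ℝ | Hits G A B r}

/-- VAL: properties of the value. -/
def T_VAL : Prop :=
  ∀ (V : Type) [Fintype V] (G : Tour V),
    (∀ A B : Finset V, 0 ≤ val G A B ∧ val G A B ≤ 1) ∧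
    (∀ A A' B : Finset V, A ⊆ A' → val G A B ≤ val G A' B) ∧
    (∀ A B B' : Finset V, B ⊆ B' → val G A B' ≤ val G A B) ∧
    (∀ A B : Finset V, A.Nonempty → B.Nonempty → 1 ≤ val G A B + val G B A) ∧
    (∀ (A B : Finset V) (r : ℝ), A.Nonempty → r < val G A B → r ≤ 1 → Hits G A B r)

/-- RRA: the RR lemma for one value of the seed of the empty set. -/
def T_RRA : Prop :=
  ∀ (V : Type) [Fintype V] [DecidableEq V] (G : Tour V) (β : Type) [Fintype β] (P : Law β)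
    (A : β → Finset V) (I : ℕ) (Fam : ℕ → Finset V → Prop) (ε ξ τ : ℝ), 0 < I → 0 ≤ ε →
    Fam 0 univ → (∀ i T, Fam i T → Fam (i + 1) T) →
    (∀ i < I, ∀ T, Fam i T → P.P (fun b => ¬ Fam (i + 1) (A b ∩ T)) ≤ ε) →
    (∀ i < I, ∀ T, Fam i T → P.P (fun b => A b ∩ T = ∅) ≤ ε) →
    1 / I + ε ≤ ξ → Real.sqrt ξ < τ →
    ∃ i < I, ∃ T, Fam i T ∧
      (P.P (fun b => val G (A b) T < 1 / 2 - τ)) ^ 2 ≤ 2 * Real.sqrt ξ + 2 * ε

/-- RR: the RR lemma in systems. -/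
def T_RR : Prop :=
  ∀ (K h' : ℕ) (τ τ1 : ℝ), 1 ≤ h' → 0 < τ → 0 < τ1 → ∃ h : ℕ, 1 ≤ h ∧
    ∀ (V : Type) [Fintype V] [DecidableEq V] (G : Tour V) (S : Sys V), S.Good G h →
    ∃ T2 : S.D.S → Finset V, (S.cut T2).Good G h' ∧
      (S.D.mu (Fin K)).P (fun ω => ¬ ((S.T K ω).Nonempty ∧
        Hits G (S.T K ω) (T2 (ω ∅)) (1 / 2 - τ))) ≤ τ1

/-! ### Minimal norms, energy, stability -/

/-- A choice of minimal norm elements. -/
structure MinF {V : Type} [Fintype V] (G : Tour V) (MF : Finset V → Law V → V → ℝ) : Prop where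
  on : ∀ (T : Finset V) (μ : Law V), T.Nonempty → ∃ η : Law V, η.On T ∧ MF T μ = mean G η
  empty : ∀ μ : Law V, MF ∅ μ = fun _ => 1
  nonneg : ∀ T μ c, 0 ≤ MF T μ c
  le_one : ∀ T μ c, MF T μ c ≤ 1
  diff : ∀ (T T' : Finset V) (μ : Law V), T' ⊆ T →
    ip μ (fun c => MF T' μ c - MF T μ c) (fun c => MF T' μ c - MF T μ c) ≤
      ip μ (MF T' μ) (MF T' μ) - ip μ (MF T μ) (MF T μ)

/-- NRM: minimal norm elements exist. -/
def T_NRM : Prop :=
  ∀ (V : Type) [Fintype V] (G : Tour V), ∃ MF : Finset V → Law V → V → ℝ, MinF G MF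

/-- The energy of level `j` at scale `k` of a system with a kernel. -/
noncomputable def energy {V : Type} [Fintype V] (MF : Finset V → Law V → V → ℝ) (S : Sys V)
    {K : ℕ} (u : Cf S.D.S (Fin K) → Law V) (j k : ℕ) : ℝ :=
  (S.D.mu (Fin k)).E (fun ω =>
    ip (cnd S.D u j (fstc j ω)) (MF (S.T k ω) (cnd S.D u j (fstc j ω)))
      (MF (S.T k ω) (cnd S.D u j (fstc j ω))))

/-- `S` is stable at scale `K0` against `h`-good refinements. -/
def Stable {V : Type} [Fintype V] (G : Tour V) (MF : Finset V → Law V → V → ℝ) (S : Sys V)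
    {K : ℕ} (u : Cf S.D.S (Fin K) → Law V) (N0 h K0 : ℕ) (δ : ℝ) : Prop :=
  ∀ (S' : Sys V) (r : Ref S' S), S'.Good G h → ∀ j ≤ N0, ∀ k, N0 ≤ k → k ≤ 2 * K0 + K →
    energy MF S' (fun ω => u (r.cf ω)) j k ≤ energy MF S u j K0 + δ

/-- STB: stable refinements exist. -/
def T_STB : Prop :=
  ∀ (K N0 : ℕ) (δ : ℝ), 0 < δ → N0 ≤ K → ∃ Kmax : ℕ, N0 ≤ Kmax ∧ ∀ (hmin : ℕ) (Phi : ℕ → ℕ),
    1 ≤ hmin → (∀ h, h ≤ Phi h) → ∃ h0 : ℕ, 1 ≤ h0 ∧ ∀ (V : Type) [Fintype V] (G : Tour V) (MF : Finset V → Law V → V → ℝ),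
    MinF G MF → ∀ (S0 : Sys V), S0.Good G h0 → ∀ u : Cf S0.D.S (Fin K) → Law V,
    ∃ (h K0 : ℕ) (S : Sys V) (r : Ref S S0), hmin ≤ h ∧ N0 ≤ K0 ∧ K0 ≤ Kmax ∧
      S.Good G h ∧ S.Good G (Phi h) ∧ Stable G MF S (fun ω => u (r.cf ω)) N0 h K0 δ

/-- The stable function. -/
noncomputable def stF {V : Type} [Fintype V] (MF : Finset V → Law V → V → ℝ) (S : Sys V)
    {K : ℕ} (u : Cf S.D.S (Fin K) → Law V) (K0 j : ℕ) (θ : Cf S.D.S (Fin j)) (c : V) : ℝ :=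
  (S.D.mu (Fin K0)).E (fun ω => MF (S.T K0 (glueF θ ω)) (cnd S.D u j θ) c)

/-- Some selection of laws on `T_K` has mean `δ`-close to `F`. -/
def StabAt {V : Type} [Fintype V] (G : Tour V) (S : Sys V) (K j : ℕ)
    (M : Cf S.D.S (Fin j) → Law V) (F : Cf S.D.S (Fin j) → V → ℝ) (δ : ℝ) : Prop :=
  ∃ η : Cf S.D.S (Fin K) → Law V,
    (∀ ω, (S.T K ω).Nonempty → (η ω).On (S.T K ω)) ∧
    (S.D.mu (Fin K)).E (fun ω => open Classical in if (S.T K ω).Nonempty then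
      ip (M (fstc j ω)) (fun c => mean G (η ω) c - F (fstc j ω) c)
        (fun c => mean G (η ω) c - F (fstc j ω) c) else 1) ≤ δ

/-- Stability of `F` against all `h`-good refinements. -/
def Stab {V : Type} [Fintype V] (G : Tour V) (S : Sys V) (K j : ℕ)
    (M : Cf S.D.S (Fin j) → Law V) (F : Cf S.D.S (Fin j) → V → ℝ) (h : ℕ) (δ : ℝ) : Prop :=
  ∀ (S' : Sys V) (r : Ref S' S), S'.Good G h →
    StabAt G S' K j (fun θ => M (r.cf θ)) (fun θ => F (r.cf θ)) δ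

/-- ST1: the stable function is close to the minimal norm elements. -/
def T_ST1 : Prop :=
  ∀ (K N0 h K0 : ℕ) (δ : ℝ), N0 ≤ K → N0 ≤ K0 →
    ∀ (V : Type) [Fintype V] (G : Tour V) (MF : Finset V → Law V → V → ℝ), MinF G MF →
    ∀ (S : Sys V) (u : Cf S.D.S (Fin K) → Law V), S.Good G h → Stable G MF S u N0 h K0 δ →
    ∀ j ≤ N0, (S.D.mu (Fin K0)).E (fun ω =>
      ip (cnd S.D u j (fstc j ω))
        (fun c => MF (S.T K0 ω) (cnd S.D u j (fstc j ω)) c - stF MF S u K0 j (fstc j ω) c)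
        (fun c => MF (S.T K0 ω) (cnd S.D u j (fstc j ω)) c - stF MF S u K0 j (fstc j ω) c)) ≤
      2 * δ

/-- ST2: the stable function is stable. -/
def T_ST2 : Prop :=
  ∀ (K N0 h K0 : ℕ) (δ : ℝ), N0 ≤ K → N0 ≤ K0 → K0 + K ≤ h →
    ∀ (V : Type) [Fintype V] (G : Tour V) (MF : Finset V → Law V → V → ℝ), MinF G MF →
    ∀ (S : Sys V) (u : Cf S.D.S (Fin K) → Law V), S.Good G h → Stable G MF S u N0 h K0 δ →
    ∀ j ≤ N0, Stab G S K j (cnd S.D u j) (stF MF S u K0 j) h (6 * δ + 1 / h)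

/-- The hitting property of a kernel on a system. -/
def HP {V : Type} [Fintype V] (G : Tour V) (S : Sys V) {K : ℕ}
    (u : Cf S.D.S (Fin K) → Law V) (τ : ℝ) : Prop :=
  (S.D.mu (Fin K)).P (fun ω => ∃ z ∈ S.T 0 (fstc 0 ω),
    (∑ c, (u ω).w c * hit G c z) < 1 / 2 - 1 / 100) ≤ τ

/-- MKL: kernels with the hitting property charge the stable function. -/
def T_MKL : Prop :=
  ∀ (K N0 h K0 : ℕ) (δ τ : ℝ), 0 ≤ δ → N0 ≤ K → N0 ≤ K0 →
    ∀ (V : Type) [Fintype V] (G : Tour V) (MF : Finset V → Law V → V → ℝ), MinF G MF →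
    ∀ (S : Sys V) (u : Cf S.D.S (Fin K) → Law V), S.Good G h → Stable G MF S u N0 h K0 δ →
    HP G S u τ → ∀ j ≤ N0,
    (S.D.mu (Fin K)).E (fun ω =>
      max 0 (1 / 2 - 1 / 100 - (u ω).E (stF MF S u K0 j (fstc j ω)))) ≤
      Real.sqrt (2 * δ) + τ

/-- STFS: the stable function is symmetric and bounded. -/
def T_STFS : Prop :=
  ∀ (V : Type) [Fintype V] (G : Tour V) (MF : Finset V → Law V → V → ℝ), MinF G MF →
    ∀ (S : Sys V) (K K0 j : ℕ) (u : Cf S.D.S (Fin K) → Law V), Sym u → j ≤ K → j ≤ K0 →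
    Sym (stF MF S u K0 j) ∧ ∀ θ c, 0 ≤ stF MF S u K0 j θ c ∧ stF MF S u K0 j θ c ≤ 1

/-! ### Typical hitting kernels -/

/-- MAU: sampling finitely many directions (Maurey). -/
def T_MAU : Prop :=
  ∀ (V : Type) [Fintype V] (nt q : ℕ) (μ : Fin nt → Law V) (g : Fin nt → V → V → ℝ)
    (u : Law V), 0 < q → (∀ a z c, |g a z c| ≤ 1) →
    ∃ z : Fin q → V, ∀ (a : Fin nt) (f : V → ℝ), (∀ c, |f c| ≤ 1) →
      ∑ x, u.w x * (ip (μ a) (g a x) f) ^ 2 ≤
        1 / q * ∑ s, (ip (μ a) (g a (z s)) f) ^ 2 + Real.sqrt (nt / q)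

/-- HSU: average squared inner products with a typical family. -/
def T_HSU : Prop :=
  ∀ (V : Type) [Fintype V] (W : Type) [Fintype W] (μ : Law V) (u : Law W) (g : W → V → ℝ)
    (f : V → ℝ),
    ∑ x, u.w x * (ip μ (g x) f) ^ 2 ≤
      Real.sqrt (∑ x, ∑ y, u.w x * u.w y * (ip μ (g x) (g y)) ^ 2) * ip μ f f

/-- A family of types: kernels of lower levels with their stable functions. -/
structure Types (V : Type) [Fintype V] (D : Seeds) (K nt : ℕ) where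
  j : Fin nt → ℕ
  hj : ∀ a, j a ≤ K
  M : (a : Fin nt) → Cf D.S (Fin (j a)) → Law V
  F : (a : Fin nt) → Cf D.S (Fin (j a)) → V → ℝ
  F0 : ∀ a θ c, 0 ≤ F a θ c
  F1 : ∀ a θ c, F a θ c ≤ 1

/-- The typicality functional `⟨g_x, g_y⟩²` of a type. -/
noncomputable def tyk {V : Type} [Fintype V] (G : Tour V) (μ : Law V) (F : V → ℝ) (x y : V) :
    ℝ :=
  (ip μ (fun c => hit G c x - F c) (fun c => hit G c y - F c)) ^ 2

/-- FWS: one step of the Frank-Wolfe construction. -/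
def T_FWS : Prop :=
  ∀ (K nt L q h' : ℕ) (τ1 : ℝ), 0 < L → 0 < q → 1 ≤ h' → 0 < τ1 → ∃ h : ℕ, 1 ≤ h ∧
    ∀ (V : Type) [Fintype V] [DecidableEq V] (G : Tour V) (S : Sys V), S.Good G h →
    ∀ Y : Types V S.D K nt,
    ∃ (S' : Sys V) (r : Ref S' S) (u : Cf S.D.S (Fin K) → Law V), S'.Good G h' ∧ Sym u ∧
      (∀ ω, (S.T K ω).Nonempty → (u ω).On (S.T K ω)) ∧
      HP G S' (fun ω => u (r.cf ω)) τ1 ∧
      ∀ (ω : Cf S'.D.S (Fin K)) (a : Fin nt) (η : Law V), η.On (S'.T K ω) →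
        ∀ z ∈ S'.T K ω,
        ∑ x, (u (r.cf ω)).w x * tyk G (Y.M a (fstc (Y.j a) (r.cf ω)))
            (Y.F a (fstc (Y.j a) (r.cf ω))) x z ≤
          2 / (L : ℝ) ^ 2 + 2 * ip (Y.M a (fstc (Y.j a) (r.cf ω)))
            (fun c => mean G η c - Y.F a (fstc (Y.j a) (r.cf ω)) c)
            (fun c => mean G η c - Y.F a (fstc (Y.j a) (r.cf ω)) c) + Real.sqrt (nt / q)

/-- FW: typical hitting kernels. -/
def T_FW : Prop :=
  ∀ (K nt : ℕ) (τ γ : ℝ), 0 < τ → 0 < γ → ∃ (δ : ℝ) (H0 : ℕ), 0 < δ ∧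
    ∀ hc h' : ℕ, H0 ≤ h' → hc ≤ h' → 1 ≤ h' → ∃ h : ℕ, 1 ≤ h ∧
    ∀ (V : Type) [Fintype V] [DecidableEq V] (G : Tour V) (S : Sys V), S.Good G h →
    ∀ Y : Types V S.D K nt,
    (∀ a, Stab G S K (Y.j a) (Y.M a) (Y.F a) hc δ) →
    ∃ (S' : Sys V) (r : Ref S' S) (u : Cf S'.D.S (Fin K) → Law V), S'.Good G h' ∧ Sym u ∧
      (∀ ω, (S'.T K ω).Nonempty → (u ω).On (S.T K (r.cf ω))) ∧
      HP G S' u τ ∧
      ∀ a : Fin nt, (S'.D.mu (Fin K)).E (fun ω => ∑ x, ∑ y, (u ω).w x * (u ω).w y *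
        tyk G (Y.M a (fstc (Y.j a) (r.cf ω))) (Y.F a (fstc (Y.j a) (r.cf ω))) x y) ≤ γ

/-! ### Levels -/

/-- The data of one level of hitters, seen on seeds `D`. -/
structure Lvl (V : Type) [Fintype V] (D : Seeds) (K J : ℕ) where
  u : Cf D.S (Fin K) → Law V
  v : (j : ℕ) → Cf D.S (Fin j) → Fin J → V
  F : (j : ℕ) → Cf D.S (Fin j) → V → ℝ
  Pv : Type
  prev : D.S → Pv

/-- Pull back of a level. -/
def Lvl.pb {V : Type} [Fintype V] {D' D : Seeds} {K J : ℕ} (X : Lvl V D K J)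
    (p : SMap D' D) : Lvl V D' K J where
  u := fun ω => X.u (p.cf ω)
  v := fun j ω => X.v j (p.cf ω)
  F := fun j ω => X.F j (p.cf ω)
  Pv := X.Pv
  prev := fun a => X.prev (p.f a)

/-- The law of level `X` over `j` points. -/
noncomputable def Lvl.M {V : Type} [Fintype V] {D : Seeds} {K J : ℕ} (X : Lvl V D K J) (j : ℕ)
    (θ : Cf D.S (Fin j)) : Law V := cnd D X.u j θ

/-- The invariants of a single level (on seeds `D`). -/
structure InvS {V : Type} [Fintype V] (D : Seeds) (K N0 J : ℕ) (e : ℝ) (X : Lvl V D K J) :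
    Prop where
  usym : Sym X.u
  vsym : ∀ j, Sym (X.v j)
  Fsym : ∀ j ≤ N0, Sym (X.F j)
  F0 : ∀ j θ c, 0 ≤ X.F j θ c
  F1 : ∀ j θ c, X.F j θ c ≤ 1
  udep : ∀ ω ω', (∀ s, X.prev (ω s) = X.prev (ω' s)) → X.u ω = X.u ω'
  vdep : ∀ (j : ℕ) (ω ω' : Cf D.S (Fin j)), (∀ s, X.prev (ω s) = X.prev (ω' s)) →
    ω univ = ω' univ → X.v j ω = X.v j ω'
  fresh : ∀ j ≤ N0, ∀ (ω : Cf D.S (Fin j)) (a0 : D.S) (g : (Fin J → V) → ℝ),
    (D.law j).E (fun a => open Classical in if X.prev a = X.prev a0 then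
      g (X.v j (Function.update ω univ a)) else 0) =
    (D.law j).P (fun a => X.prev a = X.prev a0) *
      (Law.pi (fun _ : Fin J => X.M j (Function.update ω univ a0))).E g
  marks : ∀ j ≤ N0, (D.mu (Fin K)).E (fun ω =>
    max 0 (1 / 2 - 1 / 100 - (X.u ω).E (X.F j (fstc j ω)))) ≤ e

/-- The invariants of a pair of levels `X` (lower), `Y` (upper). -/
structure InvP {V : Type} [Fintype V] (G : Tour V) (D : Seeds) (K N0 J : ℕ) (e γ : ℝ)
    (X Y : Lvl V D K J) : Prop where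
  vdep' : ∀ (j : ℕ) (ω ω' : Cf D.S (Fin j)), (∀ s, Y.prev (ω s) = Y.prev (ω' s)) →
    X.v j ω = X.v j ω'
  aware : (D.mu (Fin K)).P (fun ω => ∃ c, 0 < (Y.u ω).w c ∧ ∃ j ≤ N0, ∃ q : Fin j ↪ Fin K,
    ∃ b, ¬ G.adj c (X.v j (pull q ω) b)) ≤ e
  tp : ∀ j ≤ N0, (D.mu (Fin K)).E (fun ω => ∑ x, ∑ y, (Y.u ω).w x * (Y.u ω).w y *
    tyk G (X.M j (fstc j ω)) (X.F j (fstc j ω)) x y) ≤ γ

/-- The invariants of the levels `< l` on a system. -/
structure Inv {V : Type} [Fintype V] (G : Tour V) (S : Sys V) (K N0 J : ℕ) (e γ δ : ℝ)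
    (hc l : ℕ) (lv : ℕ → Lvl V S.D K J) : Prop where
  single : ∀ i < l, InvS S.D K N0 J e (lv i)
  pair : ∀ i i', i < i' → i' < l → InvP G S.D K N0 J e γ (lv i) (lv i')
  tau : ∀ i < l, ∀ (N : ℕ) (ω : Cf S.D.S (Fin N)), ∀ z ∈ S.T N ω, ∀ j ≤ N0,
    ∀ q : Fin j ↪ Fin N, ∀ b, G.adj z ((lv i).v j (pull q ω) b)
  st : ∀ i < l, ∀ j ≤ N0, Stab G S K j ((lv i).M j) ((lv i).F j) hc δ

/-- FRPB: freshness is preserved by maps of seeds. -/
def T_FRPB : Prop :=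
  ∀ (D' D : Seeds) (p : SMap D' D) (O X : Type) [Fintype O] (prev : D.S → X) (j : ℕ)
    (v : Cf D.S (Fin j) → O) (κ : Cf D.S (Fin j) → Law O),
    (∀ (ω : Cf D.S (Fin j)) (a0 : D.S) (g : O → ℝ),
      (D.law j).E (fun a => open Classical in if prev a = prev a0 then
        g (v (Function.update ω univ a)) else 0) =
      (D.law j).P (fun a => prev a = prev a0) * (κ (Function.update ω univ a0)).E g) →
    ∀ (ω : Cf D'.S (Fin j)) (a0 : D'.S) (g : O → ℝ),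
      (D'.law j).E (fun a => open Classical in if prev (p.f a) = prev (p.f a0) then
        g (v (p.cf (Function.update ω univ a))) else 0) =
      (D'.law j).P (fun a => prev (p.f a) = prev (p.f a0)) *
        (κ (p.cf (Function.update ω univ a0))).E g

/-- INVPB: invariants are preserved by refinements and by raising the threshold. -/
def T_INVPB : Prop :=
  ∀ (V : Type) [Fintype V] (G : Tour V) (K N0 J : ℕ) (e γ δ : ℝ) (hc hc' l : ℕ)
    (S S' : Sys V) (r : Ref S' S) (lv : ℕ → Lvl V S.D K J), N0 ≤ K → 1 ≤ hc → hc ≤ hc' →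
    Inv G S K N0 J e γ δ hc l lv →
    Inv G S' K N0 J e γ δ hc' l (fun i => (lv i).pb r.toSMap)

/-- ADDL: adding the samples of a kernel and cutting by their in-neighbourhoods. -/
def T_ADDL : Prop :=
  ∀ (K N0 J h' : ℕ), N0 ≤ K → 1 ≤ h' → ∃ h : ℕ, 1 ≤ h ∧
    ∀ (V : Type) [Fintype V] [DecidableEq V] (G : Tour V) (S : Sys V), S.Good G h →
    ∀ u : Cf S.D.S (Fin K) → Law V, Sym u →
    ∃ (S' : Sys V) (r : Ref S' S) (v : (j : ℕ) → Cf S'.D.S (Fin j) → Fin J → V),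
      S'.Good G h' ∧ (∀ j, Sym (v j)) ∧
      (∀ j (ω ω' : Cf S'.D.S (Fin j)), (∀ s, r.f (ω s) = r.f (ω' s)) → ω univ = ω' univ →
        v j ω = v j ω') ∧
      (∀ j ≤ N0, ∀ (ω : Cf S'.D.S (Fin j)) (a0 : S'.D.S) (g : (Fin J → V) → ℝ),
        (S'.D.law j).E (fun a => open Classical in if r.f a = r.f a0 then
          g (v j (Function.update ω univ a)) else 0) =
        (S'.D.law j).P (fun a => r.f a = r.f a0) *
          (Law.pi (fun _ : Fin J => cnd S.D u j (r.cf (Function.update ω univ a0)))).E g) ∧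
      (∀ (N : ℕ) (ω : Cf S'.D.S (Fin N)), ∀ z ∈ S'.T N ω, ∀ j ≤ N0,
        ∀ q : Fin j ↪ Fin N, ∀ b, G.adj z (v j (pull q ω) b))

/-- LEVEL: the level step. -/
def T_LEVEL : Prop :=
  ∀ (K N0 J t : ℕ) (e γ : ℝ), N0 ≤ K → 0 < J → 0 < e → 0 < γ → ∃ (δ : ℝ) (H0 : ℕ), 0 < δ ∧
    ∀ (hc : ℕ) (Phi : ℕ → ℕ), H0 ≤ hc → (∀ h, h ≤ Phi h) → ∃ h0 : ℕ, 1 ≤ h0 ∧
    ∀ (V : Type) [Fintype V] [DecidableEq V] (G : Tour V) (S : Sys V), S.Good G h0 →
    ∀ (l : ℕ) (lv : ℕ → Lvl V S.D K J), l ≤ t → Inv G S K N0 J e γ δ hc l lv →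
    ∃ (h : ℕ) (S' : Sys V) (lv' : ℕ → Lvl V S'.D K J), hc ≤ h ∧ S'.Good G (Phi h) ∧
      Inv G S' K N0 J e γ δ h (l + 1) lv'

/-- LEVELS: all levels. -/
def T_LEVELS : Prop :=
  ∀ (K N0 J t : ℕ) (e γ : ℝ), N0 ≤ K → 0 < J → 0 < e → 0 < γ → ∃ h0 : ℕ, 1 ≤ h0 ∧
    ∀ (V : Type) [Fintype V] [DecidableEq V] (G : Tour V), Rich G h0 univ →
    ∃ (S : Sys V) (δ : ℝ) (h : ℕ) (lv : ℕ → Lvl V S.D K J),
      Inv G S K N0 J e γ δ h (t + 1) lv

/-! ### Rectangle positivity -/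

/-- RPA: the analytic inequality with exchangeable clones. -/
def T_RPA : Prop :=
  ∀ (V : Type) [Fintype V] (Rh W O : Type) [Fintype Rh] [Fintype W] [Fintype O]
    (P : Law Rh) (Mρ : Rh → Law V) (μ : Law V) (lam : Law W) (g : W → V → ℝ) (k : ℕ)
    (Q : Law O) (ρ : Fin k → O → Rh) (c : O → V) (A : Rh → Finset V) (γ : ℝ),
    0 < k → (∀ x, (Law.mix P Mρ).w x = μ.w x) → (∀ d x, |g d x| ≤ 1) →
    (∀ i j, i ≠ j → ∀ f : Rh → Rh → ℝ,
      Q.E (fun o => f (ρ i o) (ρ j o)) = P.E (fun a => P.E (fun b => f a b))) →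
    (∀ i, ∀ f : Rh → V → ℝ, Q.E (fun o => f (ρ i o) (c o)) = P.E (fun a => (Mρ a).E (f a))) →
    ∑ d, ∑ d', lam.w d * lam.w d' * (ip μ (g d) (g d')) ^ 2 ≤ γ ^ 2 → 0 ≤ γ →
    (lam.E (fun d => P.E (fun a => (∑ x ∈ A a, (Mρ a).w x * g d x) ^ 2))) ^ 2 ≤
      1 / k + Real.sqrt γ

/-- RPS: rectangle positivity in configurations. -/
def T_RPS : Prop :=
  ∀ (k K : ℕ) (γ : ℝ), 0 < k → 0 < γ →
    ∀ (V : Type) [Fintype V] [DecidableEq V] (G : Tour V) (D : Seeds) (ι : Type) [Fintype ι]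
      [DecidableEq ι], Fintype.card ι * (k + 1) ≤ K →
    ∀ (u u' : Cf D.S (Fin K) → Law V) (F : (j : ℕ) → Cf D.S (Fin j) → V → ℝ), Sym u → Sym u' →
    (∀ j ≤ Fintype.card ι, Sym (F j)) → (∀ j θ c, 0 ≤ F j θ c) → (∀ j θ c, F j θ c ≤ 1) →
    (∀ j ≤ Fintype.card ι, (D.mu (Fin K)).E (fun ω => ∑ x, ∑ y, (u' ω).w x * (u' ω).w y *
      tyk G (cnd D u j (fstc j ω)) (F j (fstc j ω)) x y) ≤ γ ^ 16) →
    ∀ (Q Q' : Finset ι) (A B : Cf D.S ι → Finset V),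
      (D.mu ι).E (fun ω => |∑ c ∈ A ω, ∑ d ∈ B ω, (cnd D u Q.card (res Q ω)).w c *
        (cnd D u' Q'.card (res Q' ω)).w d * (hit G c d - F (Q ∩ Q').card (res (Q ∩ Q') ω) c)|) ≤
      Real.sqrt (Real.sqrt (1 / k + γ ^ 4))

/-! ### From the invariants to the final data -/

/-- BFR: freshness in ambient configurations. -/
def T_BFR : Prop :=
  ∀ (V : Type) [Fintype V] (D : Seeds) (K N0 J : ℕ) (e : ℝ) (X : Lvl V D K J), N0 ≤ K →
    InvS D K N0 J e X → ∀ (ι : Type) [Fintype ι] [DecidableEq ι] (Q : Finset ι), Q.card ≤ N0 →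
    ∀ g : Cf D.S ι → (Fin J → V) → ℝ,
    (∀ ω ω', (∀ s, s ≠ Q → ω s = ω' s) → X.prev (ω Q) = X.prev (ω' Q) → g ω = g ω') →
    (D.mu ι).E (fun ω => g ω (X.v Q.card (res Q ω))) =
      (D.mu ι).E (fun ω => (Law.pi (fun _ : Fin J => X.M Q.card (res Q ω))).E (g ω))

/-- BMA: martingale property in ambient configurations. -/
def T_BMA : Prop :=
  ∀ (V : Type) [Fintype V] (D : Seeds) (K : ℕ) (u : Cf D.S (Fin K) → Law V), Sym u →
    ∀ (ι : Type) [Fintype ι] [DecidableEq ι] (Q Q' : Finset ι), Q ⊆ Q' → Q'.card ≤ K →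
    ∀ f : Cf D.S ι → V → ℝ, (∀ ω ω', (∀ s ⊆ Q, ω s = ω' s) → f ω = f ω') →
    (D.mu ι).E (fun ω => (cnd D u Q'.card (res Q' ω)).E (f ω)) =
      (D.mu ι).E (fun ω => (cnd D u Q.card (res Q ω)).E (f ω))

/-- BMK: marks in ambient configurations. -/
def T_BMK : Prop :=
  ∀ (V : Type) [Fintype V] (D : Seeds) (K N0 J : ℕ) (e : ℝ) (X : Lvl V D K J), N0 ≤ K →
    InvS D K N0 J e X → ∀ (ι : Type) [Fintype ι] [DecidableEq ι] (C Q : Finset ι), C ⊆ Q →
    Q.card ≤ N0 →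
    (D.mu ι).P (fun ω => (X.M Q.card (res Q ω)).E (X.F C.card (res C ω)) < 2 / 5) ≤
      100 / 9 * e

/-- BAW: awareness in ambient configurations. -/
def T_BAW : Prop :=
  ∀ (V : Type) [Fintype V] (G : Tour V) (D : Seeds) (K N0 J : ℕ) (e γ : ℝ)
    (X Y : Lvl V D K J), N0 ≤ K →
    InvS D K N0 J e X → InvS D K N0 J e Y → InvP G D K N0 J e γ X Y →
    ∀ (ι : Type) [Fintype ι] [DecidableEq ι] (Q Q' : Finset ι), Q ⊆ Q' → Q'.card ≤ N0 →
    (D.mu ι).P (fun ω => ∃ i i', ¬ G.adj (Y.v Q'.card (res Q' ω) i) (X.v Q.card (res Q ω) i')) ≤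
      J * e

end Pool.Agent.H51.PT
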