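import Mathlib
import Pool.Agent.H51.PT.Defs

set_option autoImplicit false

/-!
MP_c1331e_co: the final half. Weak poset tournaments, the final data, and the targets of the
final half.
-/

namespace Pool.Agent.H51.PT

open Finset

/-- Sizes of the index sets. -/
def sz (t : ℕ) : ℕ → ℕ
  | 0 => 1
  | l + 1 => t * sz t l + 1

/-- Number of slots. -/
def slots (t : ℕ) : ℕ := t * sz t t + t + 1

/-- The tournament contains a weak poset tournament with levels `0, ..., t`. -/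
def WeakP (t : ℕ) {V : Type} (G : Tour V) : Prop :=
  ∃ x : ℕ → Finset (Fin (slots t)) → V, ∀ (l l' : ℕ) (A A' : Finset (Fin (slots t))),
    l < l' → l' ≤ t → A.Nonempty → A'.Nonempty → A.card ≤ sz t l → A'.card ≤ sz t l' →
    (A ⊆ A' → G.adj (x l' A') (x l A)) ∧
      (¬ A ⊆ A' → G.adj (x l A) (x l' A') ∨ x l A = x l' A')

/-- Final data: everything that the construction provides for the final argument. -/
structure FData {V : Type} [Fintype V] (G : Tour V) (ι : Type) [Fintype ι] [DecidableEq ι]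
    (t J : ℕ) (e1 e2 : ℝ) where
  D : Seeds
  /-- law of a fresh element of level `l` over `Q` -/
  M : ℕ → Finset ι → Cf D.S ι → Law V
  /-- the real elements (`J` clones) of level `l` over `Q` -/
  v : ℕ → Finset ι → Cf D.S ι → Fin J → V
  /-- the stable functions of level `l` -/
  F : ℕ → Finset ι → Cf D.S ι → V → ℝ
  /-- memory -/
  Pv : ℕ → Type
  prev : (l : ℕ) → D.S → Pv l
  M_dep : ∀ l ≤ t, ∀ Q ω ω', (∀ s ⊆ Q, prev l (ω s) = prev l (ω' s)) → M l Q ω = M l Q ω'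
  F_dep : ∀ l ≤ t, ∀ Q ω ω', (∀ s ⊆ Q, ω s = ω' s) → F l Q ω = F l Q ω'
  v_dep : ∀ l ≤ t, ∀ Q ω ω', (∀ s ⊆ Q, prev l (ω s) = prev l (ω' s)) → ω Q = ω' Q →
    v l Q ω = v l Q ω'
  v_dep' : ∀ l l', l < l' → l' ≤ t → ∀ Q ω ω', (∀ s ⊆ Q, prev l' (ω s) = prev l' (ω' s)) →
    v l Q ω = v l Q ω'
  fresh : ∀ l ≤ t, ∀ Q, ∀ g : Cf D.S ι → (Fin J → V) → ℝ,
    (∀ ω ω', (∀ s, s ≠ Q → ω s = ω' s) → prev l (ω Q) = prev l (ω' Q) → g ω = g ω') →
    (D.mu ι).E (fun ω => g ω (v l Q ω)) =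
      (D.mu ι).E (fun ω => (Law.pi (fun _ : Fin J => M l Q ω)).E (g ω))
  mart : ∀ l ≤ t, ∀ Q Q' : Finset ι, Q ⊆ Q' → ∀ f : Cf D.S ι → V → ℝ,
    (∀ ω ω', (∀ s ⊆ Q, ω s = ω' s) → f ω = f ω') →
    (D.mu ι).E (fun ω => (M l Q' ω).E (f ω)) = (D.mu ι).E (fun ω => (M l Q ω).E (f ω))
  F_nonneg : ∀ l ≤ t, ∀ Q ω c, 0 ≤ F l Q ω c
  F_le_one : ∀ l ≤ t, ∀ Q ω c, F l Q ω c ≤ 1
  marks : ∀ l ≤ t, ∀ C Q : Finset ι, C ⊆ Q →
    (D.mu ι).P (fun ω => (M l Q ω).E (F l C ω) < 2 / 5) ≤ e1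
  aware : ∀ l l', l < l' → l' ≤ t → ∀ Q Q' : Finset ι, Q ⊆ Q' →
    (D.mu ι).P (fun ω => ∃ i i', ¬ G.adj (v l' Q' ω i) (v l Q ω i')) ≤ e1
  rect : ∀ l l', l < l' → l' ≤ t → ∀ Q Q' : Finset ι, ∀ A B : Cf D.S ι → Finset V,
    (D.mu ι).E (fun ω => |∑ c ∈ A ω, ∑ d ∈ B ω, (M l Q ω).w c * (M l' Q' ω).w d *
      (hit G c d - F l (Q ∩ Q') ω c)|) ≤ e2

/-- The set of points below `κ`. -/
def Qk {m L : ℕ} (κ : Fin m → ℕ) : Finset (Fin m × Fin L) :=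
  univ.filter (fun x => (x.2 : ℕ) < κ x.1)

/-- The corner of a box: `q` on `A`, `p` elsewhere. -/
def corner {m : ℕ} (p q : Fin m → ℕ) (A : Finset (Fin m)) : Fin m → ℕ :=
  fun a => if a ∈ A then q a else p a

/-- The point set of the element `A` in the box `p, q`. -/
def QA {m L : ℕ} (p q : Fin m → ℕ) (A : Finset (Fin m)) : Finset (Fin m × Fin L) :=
  Qk (corner p q A)

namespace FData

variable {V : Type} [Fintype V] {G : Tour V} {m L : ℕ} {t J : ℕ} {e1 e2 : ℝ}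
variable (X : FData G (Fin m × Fin L) t J e1 e2)

open Classical in
/-- Vertices marked at all proper corners. -/
noncomputable def Good (l : ℕ) (A : Finset (Fin m)) (p q : Fin m → ℕ)
    (ω : Cf X.D.S (Fin m × Fin L)) : Finset V :=
  univ.filter (fun v => ∀ D : Finset (Fin m), D ⊂ A → 1 / 8 ≤ X.F l (QA p q D) ω v)

/-- The mass of a set of vertices for the law of level `l` over `A`. -/
noncomputable def mass (l : ℕ) (A : Finset (Fin m)) (p q : Fin m → ℕ)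
    (ω : Cf X.D.S (Fin m × Fin L)) (B : Finset V) : ℝ :=
  ∑ v ∈ B, (X.M l (QA p q A) ω).w v

/-- The colour of a box is 1. -/
def Chi (l : ℕ) (A : Finset (Fin m)) (p q : Fin m → ℕ) (d1 : ℝ)
    (ω : Cf X.D.S (Fin m × Fin L)) : Prop :=
  d1 ≤ X.mass l A p q ω (X.Good l A p q ω)

/-- `f ω` depends on the seed at `Q` only through the memory of level `l`. -/
def DepPrev {V : Type} [Fintype V] {G : Tour V} {ι : Type} [Fintype ι] [DecidableEq ι]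
    {t J : ℕ} {e1 e2 : ℝ} (X : FData G ι t J e1 e2) {β : Type} (l : ℕ) (Q : Finset ι) (f : Cf X.D.S ι → β) : Prop :=
  ∀ ω ω', (∀ s, s ≠ Q → ω s = ω' s) → X.prev l (ω Q) = X.prev l (ω' Q) → f ω = f ω'

/-- One step of the selection: the clone `σ` of every unaware lower element is good. -/
def SelHyp (l' : ℕ) (A' : Finset (Fin m)) (p q : Fin m → ℕ) (σ : ℕ → Finset (Fin m) → Fin J)
    (ω : Cf X.D.S (Fin m × Fin L)) : Prop :=
  ∀ l < l', ∀ A : Finset (Fin m), ¬ A ⊆ A' →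
    X.v l (QA p q A) ω (σ l A) ∈ X.Good l A p q ω

/-- One step of the selection: some clone of `(l', A')` is good and hit. -/
def SelCon (l' : ℕ) (A' : Finset (Fin m)) (p q : Fin m → ℕ) (σ : ℕ → Finset (Fin m) → Fin J)
    (ω : Cf X.D.S (Fin m × Fin L)) : Prop :=
  ∃ i : Fin J, X.v l' (QA p q A') ω i ∈ X.Good l' A' p q ω ∧
    ∀ l < l', ∀ A : Finset (Fin m), ¬ A ⊆ A' →
      hit G (X.v l (QA p q A) ω (σ l A)) (X.v l' (QA p q A') ω i) = 1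

/-- The properties of a good configuration. -/
structure GoodCf (d0 d1 : ℝ) (ω : Cf X.D.S (Fin m × Fin L)) : Prop where
  g1 : ∀ l ≤ t, ∀ κ κ' : Fin m → ℕ, (∀ a, κ a ≤ κ' a) → (∀ a, κ' a ≤ L) →
    2 / 5 ≤ (X.M l (Qk κ') ω).E (X.F l (Qk κ) ω)
  g2 : ∀ l ≤ t, ∀ (A : Finset (Fin m)) (p q κ : Fin m → ℕ), (∀ a ∈ A, p a < q a) →
    (∀ a, q a ≤ L) → (∀ a, p a ≤ q a) → (∀ a, corner p q A a ≤ κ a) → (∀ a, κ a ≤ L) →
    d0 ≤ ∑ v ∈ X.Good l A p q ω, (X.M l (Qk κ) ω).w v → X.Chi l A p q d1 ω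
  g3 : ∀ l l', l < l' → l' ≤ t → ∀ Q Q' : Finset (Fin m × Fin L), Q ⊆ Q' →
    ∀ i i', G.adj (X.v l' Q' ω i) (X.v l Q ω i')
  g4 : ∀ (p q : Fin m → ℕ), (∀ a, p a < q a) → (∀ a, q a ≤ L) →
    ∀ l' ≤ t, ∀ A' : Finset (Fin m), ∀ σ : ℕ → Finset (Fin m) → Fin J,
    X.Chi l' A' p q d1 ω → X.SelHyp l' A' p q σ ω → X.SelCon l' A' p q σ ω

end FData

/-- The box property of a grid size. -/
def BoxProp (m r : ℕ) : Prop :=
  2 ≤ r ∧ ∀ (A : Finset (Fin m)) (H : Fin m → Finset ℕ) (p0 : Fin m → ℕ)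
    (Mk : (Fin m → ℕ) → Prop), (∀ a ∈ A, (H a).card = r) →
    (r : ℝ) ^ A.card ≤ 8 * ((Fintype.piFinset (fun a => if a ∈ A then H a else {p0 a})).filter
      (fun κ => open Classical in decide (Mk κ) = true)).card →
    ∃ p q : Fin m → ℕ, (∀ a ∈ A, p a ∈ H a ∧ q a ∈ H a ∧ p a < q a) ∧
      (∀ a, a ∉ A → p a = p0 a ∧ q a = p0 a) ∧ ∀ D ⊆ A, Mk (corner p q D)

/-! ### Targets -/

/-- RAM: Ramsey theorem for `r`-subsets, colouring of increasing `r`-tuples. -/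
def T_RAM : Prop :=
  ∀ (r C n : ℕ), ∃ L : ℕ, ∀ col : (Fin r → ℕ) → Fin C,
    ∃ H : Finset ℕ, H.card = n ∧ (∀ x ∈ H, x < L) ∧
      ∀ x y : Fin r → ℕ, StrictMono x → StrictMono y → (∀ i, x i ∈ H) → (∀ i, y i ∈ H) →
        col x = col y

/-- BOX: every set of density at least `1/8` in a large grid contains all corners of a box. -/
def T_BOX : Prop := ∀ m : ℕ, ∃ r : ℕ, BoxProp m r

/-- PDOM: a weak poset tournament gives a small subtournament of large domination number. -/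
def T_PDOM : Prop :=
  ∀ t : ℕ, 1 ≤ t → ∀ (V : Type) [Fintype V] [DecidableEq V] (G : Tour V), WeakP t G →
    ∃ X : Finset V, X.card ≤ (t + 1) * 2 ^ (slots t) ∧
      ∀ S : Finset V, S ⊆ X → (∀ v ∈ X, v ∈ S ∨ ∃ u ∈ S, G.adj u v) → t + 1 ≤ S.card

/-- P2: Markov inequality for the colour (uses `mart`). -/
def T_P2 : Prop :=
  ∀ (V : Type) [Fintype V] (G : Tour V) (m L t J : ℕ) (e1 e2 : ℝ)
    (X : FData G (Fin m × Fin L) t J e1 e2) (l : ℕ), l ≤ t →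
    ∀ (A : Finset (Fin m)) (p q κ : Fin m → ℕ), (∀ a, p a ≤ q a) →
    (∀ a, corner p q A a ≤ κ a) → ∀ d0 d1 : ℝ, 0 < d0 → 0 < d1 →
    (X.D.mu _).P (fun ω => d0 ≤ ∑ v ∈ X.Good l A p q ω, (X.M l (Qk κ) ω).w v ∧
      ¬ X.Chi l A p q d1 ω) ≤ d1 / d0

/-- COLD: if all stable functions have mean at least `2/5` for the top law, some box of the grid
is marked with positive probability (uses the box property). -/
def T_COLD : Prop :=
  ∀ (V : Type) [Fintype V] (G : Tour V) (m L t J : ℕ) (e1 e2 : ℝ)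
    (X : FData G (Fin m × Fin L) t J e1 e2) (r : ℕ), BoxProp m r → ∀ l ≤ t,
    ∀ (A : Finset (Fin m)) (H : Fin m → Finset ℕ) (p0 κ' : Fin m → ℕ)
      (ω : Cf X.D.S (Fin m × Fin L)), (∀ a ∈ A, (H a).card = r) →
    (∀ κ : Fin m → ℕ, (∀ a ∈ A, κ a ∈ H a) → (∀ a, a ∉ A → κ a = p0 a) →
      2 / 5 ≤ (X.M l (Qk κ') ω).E (X.F l (Qk κ) ω)) →
    ∃ p q : Fin m → ℕ, (∀ a ∈ A, p a ∈ H a ∧ q a ∈ H a ∧ p a < q a) ∧
      (∀ a, a ∉ A → p a = p0 a ∧ q a = p0 a) ∧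
      1 / (8 * (r : ℝ) ^ (2 * m)) ≤ ∑ v ∈ X.Good l A p q ω, (X.M l (Qk κ') ω).w v

/-- SEL: one unaware lower element hits, when it is marked (uses `rect` and `fresh`). -/
def T_SEL : Prop :=
  ∀ (V : Type) [Fintype V] [DecidableEq V] (G : Tour V) (m L t J : ℕ) (e1 e2 : ℝ)
    (X : FData G (Fin m × Fin L) t J e1 e2) (l l' : ℕ), l < l' → l' ≤ t →
    ∀ (A A' : Finset (Fin m)) (p q : Fin m → ℕ), (∀ a, p a < q a) → (∀ a, q a ≤ L) →
    ¬ A ⊆ A' → ∀ (i : Fin J) (B : Cf X.D.S (Fin m × Fin L) → Finset V) (d2 : ℝ), 0 < d2 →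
    X.DepPrev l (QA p q A) B →
    (X.D.mu _).P (fun ω => d2 ≤ X.mass l' A' p q ω (B ω) ∧
      X.v l (QA p q A) ω i ∈ X.Good l A p q ω ∧
      X.mass l' A' p q ω ((B ω).filter (fun d => hit G (X.v l (QA p q A) ω i) d = 1)) <
        1 / 16 * X.mass l' A' p q ω (B ω)) ≤ 16 * e2 / d2

/-- MISS: one of the clones lies in every set of large mass (uses `fresh`). -/
def T_MISS : Prop :=
  ∀ (V : Type) [Fintype V] [DecidableEq V] (G : Tour V) (m L t J : ℕ) (e1 e2 : ℝ)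
    (X : FData G (Fin m × Fin L) t J e1 e2) (l' : ℕ), l' ≤ t →
    ∀ (A' : Finset (Fin m)) (p q : Fin m → ℕ)
      (B : Cf X.D.S (Fin m × Fin L) → Finset V) (d3 : ℝ), 0 < d3 → d3 ≤ 1 →
    X.DepPrev l' (QA p q A') B →
    (X.D.mu _).P (fun ω => d3 ≤ X.mass l' A' p q ω (B ω) ∧
      ∀ i, X.v l' (QA p q A') ω i ∉ B ω) ≤ (1 - d3) ^ J

/-- SELC: the selection step for `(l', A')` succeeds with high probability. -/
def T_SELC : Prop :=
  ∀ (V : Type) [Fintype V] [DecidableEq V] (G : Tour V) (m L t J : ℕ) (e1 e2 : ℝ)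
    (X : FData G (Fin m × Fin L) t J e1 e2) (l' : ℕ), l' ≤ t →
    ∀ (A' : Finset (Fin m)) (p q : Fin m → ℕ), (∀ a, p a < q a) → (∀ a, q a ≤ L) →
    ∀ (σ : ℕ → Finset (Fin m) → Fin J) (d1 d3 : ℝ), 0 < d3 → d1 ≤ 1 →
    d3 = d1 / 16 ^ (t * 2 ^ m) →
    (X.D.mu _).P (fun ω => X.Chi l' A' p q d1 ω ∧ X.SelHyp l' A' p q σ ω ∧
      ¬ X.SelCon l' A' p q σ ω) ≤ t * 2 ^ m * (16 * e2 / d3) + (1 - d3) ^ J

/-- HF1: good configurations exist if the errors are small. -/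
def T_HF1 : Prop :=
  ∀ (t m L : ℕ) (d0 d1 : ℝ), 0 < d0 → 0 < d1 → d1 ≤ 1 →
    (t + 1) * 2 ^ m * ((L : ℝ) + 1) ^ (3 * m) * (d1 / d0) ≤ 1 / 8 →
    ∃ (J : ℕ) (e1 e2 : ℝ), 0 < J ∧ 0 < e1 ∧ 0 < e2 ∧
    ∀ (V : Type) [Fintype V] [DecidableEq V] (G : Tour V)
      (X : FData G (Fin m × Fin L) t J e1 e2), ∃ ω, X.GoodCf d0 d1 ω

/-- HF2: a good configuration gives the weak poset tournament. -/
def T_HF2 : Prop :=
  ∀ (t r L : ℕ), BoxProp (slots t) r →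
    (∀ col : (Fin (2 * slots t) → ℕ) → (Fin (t + 1) → Finset (Fin (slots t)) → Bool),
      ∃ H : Finset ℕ, H.card = slots t * r ∧ (∀ x ∈ H, x < L) ∧
        ∀ x y : Fin (2 * slots t) → ℕ, StrictMono x → StrictMono y → (∀ i, x i ∈ H) →
          (∀ i, y i ∈ H) → col x = col y) →
    ∀ (J : ℕ) (e1 e2 d1 : ℝ), 0 < J → d1 ≤ 1 →
    ∀ (V : Type) [Fintype V] [DecidableEq V] (G : Tour V)
      (X : FData G (Fin (slots t) × Fin L) t J e1 e2) (ω : Cf X.D.S (Fin (slots t) × Fin L)),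
      X.GoodCf (1 / (8 * (r : ℝ) ^ (2 * slots t))) d1 ω → WeakP t G

/-- FINAL: final data give the weak poset tournament. -/
def T_FINAL : Prop :=
  ∀ t : ℕ, 1 ≤ t → ∃ (L J : ℕ) (e1 e2 : ℝ), 0 < J ∧ 0 < e1 ∧ 0 < e2 ∧
    ∀ (V : Type) [Fintype V] [DecidableEq V] (G : Tour V),
      FData G (Fin (slots t) × Fin L) t J e1 e2 → WeakP t G

/-- CONSTR: rich tournaments have final data. -/
def T_CONSTR : Prop :=
  ∀ (t m L J : ℕ) (e1 e2 : ℝ), 0 < J → 0 < e1 → 0 < e2 → ∃ h : ℕ,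
    ∀ (V : Type) [Fintype V] [DecidableEq V] (G : Tour V), Rich G h univ →
      Nonempty (FData G (Fin m × Fin L) t J e1 e2)

/-- MAIN. -/
def T_MAIN : Prop :=
  ∀ t : ℕ, 1 ≤ t → ∃ h : ℕ, ∀ (V : Type) [Fintype V] [DecidableEq V] (G : Tour V),
    Rich G h univ → WeakP t G

end Pool.Agent.H51.PT
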