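import Mathlib
import Pool.Agent.H51.PT.FDefs

set_option autoImplicit false

namespace Pool.Agent.H51.PT

open Finset

/-- FINAL from Ramsey, the box theorem and the two halves of the final argument. -/
theorem final (hR : T_RAM) (hB : T_BOX) (h1 : T_HF1) (h2 : T_HF2) : T_FINAL := by
  intro t ht
  obtain ⟨r, hr⟩ := hB (slots t)
  have hr2 : 2 ≤ r := hr.1
  let Col := Fin (t + 1) → Finset (Fin (slots t)) → Bool
  obtain ⟨L, hL⟩ := hR (2 * slots t) (Fintype.card Col) (slots t * r)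
  have hrp : (0 : ℝ) < r := by
    have : 0 < r := by omega
    exact_mod_cast this
  have hd0 : (0 : ℝ) < 1 / (8 * (r : ℝ) ^ (2 * slots t)) := by positivity
  have hc : (0 : ℝ) < (t + 1) * 2 ^ slots t * ((L : ℝ) + 1) ^ (3 * slots t) := by positivity
  obtain ⟨d1, hd1, hd1', hd1''⟩ : ∃ d1 : ℝ, 0 < d1 ∧ d1 ≤ 1 ∧
      (t + 1) * 2 ^ slots t * ((L : ℝ) + 1) ^ (3 * slots t) *
        (d1 / (1 / (8 * (r : ℝ) ^ (2 * slots t)))) ≤ 1 / 8 := by
    refine ⟨min 1 (1 / (8 * (r : ℝ) ^ (2 * slots t)) /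
      (8 * ((t + 1) * 2 ^ slots t * ((L : ℝ) + 1) ^ (3 * slots t)))), ?_, min_le_left _ _, ?_⟩
    · exact lt_min one_pos (by positivity)
    · calc (t + 1) * 2 ^ slots t * ((L : ℝ) + 1) ^ (3 * slots t) *
          (min 1 (1 / (8 * (r : ℝ) ^ (2 * slots t)) /
            (8 * ((t + 1) * 2 ^ slots t * ((L : ℝ) + 1) ^ (3 * slots t)))) /
            (1 / (8 * (r : ℝ) ^ (2 * slots t)))) ≤
          (t + 1) * 2 ^ slots t * ((L : ℝ) + 1) ^ (3 * slots t) *
          ((1 / (8 * (r : ℝ) ^ (2 * slots t)) /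
            (8 * ((t + 1) * 2 ^ slots t * ((L : ℝ) + 1) ^ (3 * slots t)))) /
            (1 / (8 * (r : ℝ) ^ (2 * slots t)))) := by
            refine mul_le_mul_of_nonneg_left ?_ hc.le
            exact div_le_div_of_nonneg_right (min_le_right _ _) hd0.le
        _ = 1 / 8 := by
            generalize (t + 1) * 2 ^ slots t * ((L : ℝ) + 1) ^ (3 * slots t) = x at hc
            generalize 1 / (8 * (r : ℝ) ^ (2 * slots t)) = y at hd0
            have hx := hc.ne'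
            have hy := hd0.ne'
            field_simp
        _ ≤ 1 / 8 := le_rfl
  obtain ⟨J, e1, e2, hJ, he1, he2, hgood⟩ := h1 t (slots t) L _ d1 hd0 hd1 hd1' hd1''
  refine ⟨L, J, e1, e2, hJ, he1, he2, ?_⟩
  intro V _ _ G X
  obtain ⟨ω, hω⟩ := hgood V G X
  refine h2 t r L hr ?_ J e1 e2 d1 hJ hd1' V G X ω hω
  intro col
  obtain ⟨H, hH1, hH2, hH3⟩ := hL (fun x => Fintype.equivFin Col (col x))
  refine ⟨H, hH1, hH2, fun x y hx hy hxH hyH => ?_⟩
  exact (Fintype.equivFin Col).injective (hH3 x y hx hy hxH hyH)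

theorem main (h1 : T_FINAL) (h2 : T_CONSTR) : T_MAIN := by
  intro t ht
  obtain ⟨L, J, e1, e2, hJ, he1, he2, hf⟩ := h1 t ht
  obtain ⟨h, hh⟩ := h2 t (slots t) L J e1 e2 hJ he1 he2
  refine ⟨h, fun V _ _ G hR => ?_⟩
  obtain ⟨X⟩ := hh V G hR
  exact hf V G X

end Pool.Agent.H51.PT
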