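import Mathlib
import Pool.Agent.H51.PT.CDefs

set_option autoImplicit false

namespace Pool.Agent.H51.PT

open Finset

/-- The trivial system. -/
noncomputable def trivSys (V : Type) [Fintype V] : Sys V where
  D := { S := Unit, law := fun _ => Law.dirac () }
  T := fun _ _ => univ
  nat := fun _ _ => subset_rfl

theorem trivSys_good (V : Type) [Fintype V] (G : Tour V) (h : ℕ) (hh : 1 ≤ h)
    (hr : Rich G h univ) : (trivSys V).Good G h := by
  refine ⟨hh, ?_⟩
  have : ((trivSys V).D.mu (Fin h)).P (fun ω => Rich G h ((trivSys V).T h ω)) = 1 := by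
    rw [← Law.P_true ((trivSys V).D.mu (Fin h))]
    exact Law.P_congr _ fun ω => ⟨fun _ => trivial, fun _ => hr⟩
  rw [this]
  have : (0 : ℝ) ≤ 1 / (h : ℝ) := by positivity
  linarith

/-- LEVELS: all levels, by backward induction. -/
theorem levels (hL : T_LEVEL) (hG : T_GDM) : T_LEVELS := by
  intro K N0 J t e γ hNK hJ he hγ
  obtain ⟨δ, H0, hδ, hstep⟩ := hL K N0 J t e γ hNK hJ he hγ
  have key : ∀ d : ℕ, d ≤ t + 1 → ∀ hc : ℕ, H0 ≤ hc → ∃ h0 : ℕ, 1 ≤ h0 ∧
      ∀ (V : Type) [Fintype V] [DecidableEq V] (G : Tour V) (S : Sys V), S.Good G h0 →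
      ∀ lv : ℕ → Lvl V S.D K J, Inv G S K N0 J e γ δ hc (t + 1 - d) lv →
      ∃ (S' : Sys V) (δ' : ℝ) (h : ℕ) (lv' : ℕ → Lvl V S'.D K J),
        Inv G S' K N0 J e γ δ' h (t + 1) lv' := by
    intro d
    induction d with
    | zero =>
      intro _ hc hH
      refine ⟨1, le_rfl, fun V _ _ G S _ lv hI => ⟨S, δ, hc, lv, ?_⟩⟩
      simpa using hI
    | succ d ih =>
      intro hd hc hH
      have ih' := ih (by omega)
      choose! f hf1 hf using ih'
      obtain ⟨h0, h01, h0s⟩ := hstep hc (fun h => max h (f h)) hH (fun h => le_max_left _ _)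
      refine ⟨h0, h01, ?_⟩
      intro V _ _ G S hS lv hI
      obtain ⟨h, S', lv', hh, hgood, hI'⟩ := h0s V G S hS (t + 1 - (d + 1)) lv (by omega) hI
      have e1 : t + 1 - (d + 1) + 1 = t + 1 - d := by omega
      rw [e1] at hI'
      have hg := (hG V G S' _ hgood).1 (f h) (hf1 h (hH.trans hh)) (le_max_right _ _)
      exact hf h (hH.trans hh) V G S' hg lv' hI'
  obtain ⟨h0, h01, hk⟩ := key (t + 1) le_rfl H0 le_rfl
  refine ⟨h0, h01, ?_⟩
  intro V _ _ G hR
  obtain ⟨v0, -⟩ := hR.nonempty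
  have hS := trivSys_good V G h0 h01 hR
  refine hk V G (trivSys V) hS (fun _ =>
    { u := fun _ => Law.dirac v0, v := fun _ _ _ => v0, F := fun _ _ _ => 0,
      Pv := Unit, prev := fun _ => () }) ?_
  have e0 : t + 1 - (t + 1) = 0 := by omega
  rw [e0]
  exact ⟨fun i hi => absurd hi (Nat.not_lt_zero i), fun i i' _ hi => absurd hi (Nat.not_lt_zero i'),
    fun i hi => absurd hi (Nat.not_lt_zero i), fun i hi => absurd hi (Nat.not_lt_zero i)⟩

end Pool.Agent.H51.PT
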