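import Mathlib
import Pool.Agent.H51.PT.CDefs

set_option autoImplicit false

namespace Pool.Agent.H51.PT

open Finset

theorem fstc_self {A : Type} {N : ℕ} (ω : Cf A (Fin N)) : fstc N ω = ω := by
  funext s
  unfold fstc
  congr 1
  ext y
  simp only [mem_filter, mem_univ, true_and]
  constructor
  · rintro ⟨x, hx, hxy⟩
    rwa [← Fin.ext hxy]
  · exact fun h => ⟨y, h, rfl⟩

theorem realis_zero : Realis 0 := by
  intro X _ _ N ε hε
  refine ⟨N, le_rfl, fun D P hP hmarg => ?_⟩
  refine ⟨D, SMap.id D, fun _ _ => default, fun j σ ω => rfl, fun g hg => ?_⟩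
  have h1 := hmarg (fun ω => g (fun s => (ω s, default)))
  have h2 : P.E (fun x => g (fun s =>
      ((fstc N x s).1, if s.card < 0 then (fstc N x s).2 else default))) =
      (D.mu (Fin N)).E (fun ω => g (fun s => (ω s, default))) := by
    rw [← h1]
    refine P.E_congr fun x => ?_
    simp only [fstc_self, Nat.not_lt_zero, if_false]
  rw [h2]
  have h3 : (D.mu (Fin N)).E (fun ω => g (fun s => ((SMap.id D).f (ω s),
      if s.card < 0 then (default : X) else default))) =
      (D.mu (Fin N)).E (fun ω => g (fun s => (ω s, default))) := by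
    refine (D.mu (Fin N)).E_congr fun ω => ?_
    simp only [Nat.not_lt_zero, if_false]
    rfl
  rw [h3, sub_self, abs_zero]
  exact hε.le

/-- REAL: induction. -/
theorem real (h : T_REALS) : T_REAL := by
  intro n
  induction n with
  | zero => exact realis_zero
  | succ m ih => exact h m ih

end Pool.Agent.H51.PT
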